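import Pool.Agent.Helper47.RFn.FlowN
import Pool.Agent.Helper47.RFn.Str

/-!
# Project RFn: what the maximum principle gives, and the last stage (structures and final theorem)

Language of `Helper47.RFn.FlowN`.  All constants (`C`, `σ`) depend on `n` and the pinching only.
-/

set_option autoImplicit false

open Finset Pool.Agent.Helper47.RFn

namespace Pool.Agent.Helper73.RFn

/-- the curvature tensor in the frame, restricted to the orthogonal complement of the radial vector, is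
`δ`-pinched -/
def PinF {n : ℕ} (δ : ℝ) (A θ : MF n) (x : EE n) : Prop :=
  ∀ ι, Iso (fun a => nfc A a x) ι → Pinch δ (pull ι (fun a b c d => Rf A θ a b c d x))

/-- `λ` is unbounded up to the time `T` -/
def Blow {n : ℕ} (T : ℝ) (A θ : ℝ → MF n) : Prop :=
  ∀ C t2 : ℝ, t2 < T → ∃ t x, 0 < t ∧ t2 < t ∧ t < T ∧ x ≠ 0 ∧ C < lamf (A t) (θ t) x

/-- Everything the maximum principle gives for a pinched flow on `[0,T)`. -/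
structure Good {n : ℕ} (T l0 C σ : ℝ) (A θ : ℝ → MF n) : Prop where
  p1 : ∀ t, 0 ≤ t → t < T → ∀ x, x ≠ 0 → l0 ≤ lamf (A t) (θ t) x ∧
    ∀ a b c d, |Rf (A t) (θ t) a b c d x| ≤ C * lamf (A t) (θ t) x
  p2 : ∀ t, 0 < t → t < T → ∀ x, x ≠ 0 → e2f (A t) (θ t) x ≤ C * lamf (A t) (θ t) x ^ 2
  p3 : ∀ t Q, 0 < t → t < T → (∀ x, x ≠ 0 → lamf (A t) (θ t) x ≤ Q) → C ≤ t * Q →
    ∀ x, x ≠ 0 →
      ggf (A t) (lamf (A t) (θ t)) (lamf (A t) (θ t)) x ≤ C * (t * Q) ^ (-σ) * Q ^ 3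
      ∧ e2f (A t) (θ t) x ≤ C * (t * Q) ^ (-σ) * Q ^ 2
  s2 : ∀ t1 m, 0 < t1 → t1 < T → 0 < m → (∀ x, x ≠ 0 → m ≤ lamf (A t1) (θ t1) x) →
    (∀ t, t1 ≤ t → t < T → ∀ x, x ≠ 0 → m ≤ lamf (A t) (θ t) x) ∧ m ≤ 1 / (2 * (T - t1))
  s3 : ∀ t1 Q1 e, 0 < t1 → t1 < T → 0 < Q1 → 0 ≤ e → (∀ x, x ≠ 0 → lamf (A t1) (θ t1) x ≤ Q1) →
    (∀ t, t1 ≤ t → t < T → ∀ x, x ≠ 0 → e2f (A t) (θ t) x ≤ e * lamf (A t) (θ t) x ^ 2) →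
    Blow T A θ → 1 / ((2 + C * e) * (T - t1)) ≤ Q1

/-- The facts about the time `τ` and the last stage. -/
structure Last {n : ℕ} (T C σ τ : ℝ) (A θ : ℝ → MF n) : Prop where
  pos : 0 < τ ∧ τ < T
  len : τ / C ≤ T - τ ∧ 2 * (T - τ) ≤ τ
  bef : ∀ t, 0 < t → t ≤ τ → ∀ x, x ≠ 0 → t * lamf (A t) (θ t) x ≤ C
  aft : ∀ t, τ ≤ t → t < T → ∀ x, x ≠ 0 →
    |lamf (A t) (θ t) x - 1 / (2 * (T - t))| ≤ C * (2 * (T - t) / τ) ^ (σ / 2) / (T - t)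
    ∧ ∀ a b c d, |Ef (A t) (θ t) a b c d x| ≤ C * (2 * (T - t) / τ) ^ (σ / 2) / (T - t)
  dis : ∀ x y : EE n, ‖x‖ = 1 → ‖y‖ = 1 → gdist (gOf (θ τ)) x y ≤ C * Real.sqrt τ

/-- The maximum principle results, `n ≥ 4`, pinching constant `> 1/4`. -/
def ConStmt : Prop :=
  ∀ n : ℕ, 4 ≤ n → ∀ δ : ℝ, 1 / 4 < δ → δ ≤ 1 → ∃ C σ : ℝ, 1 ≤ C ∧ 0 < σ ∧ σ ≤ 1 ∧
    ∀ (T l0 : ℝ) (A θ : ℝ → MF n), 0 < T → 0 < l0 → FFlow (Set.Ico 0 T) A θ →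
      (∀ x, x ≠ 0 → l0 ≤ lamf (A 0) (θ 0) x ∧ PinF δ (A 0) (θ 0) x) → Good T l0 C σ A θ

/-- ONE: one time of a good flow. -/
def OneStmt : Prop :=
  ∀ (n : ℕ) (C σ : ℝ), 4 ≤ n → 1 ≤ C → 0 < σ → σ ≤ 1 → ∃ C' : ℝ, 1 ≤ C' ∧
    ∀ (T l0 : ℝ) (A θ : ℝ → MF n), 0 < T → 0 < l0 → FFlow (Set.Ico 0 T) A θ →
      Good T l0 C σ A θ → ∀ t Q, 0 < t → t < T → (∀ x, x ≠ 0 → lamf (A t) (θ t) x ≤ Q) →
      (∃ p, p ≠ 0 ∧ lamf (A t) (θ t) p = Q) → C' ≤ t * Q →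
      (∀ x, x ≠ 0 → (1 - C' * (t * Q) ^ (-(σ / 2))) * Q ≤ lamf (A t) (θ t) x
        ∧ ∀ a b c d, |Ef (A t) (θ t) a b c d x| ≤ C' * (t * Q) ^ (-(σ / 2)) * Q)
      ∧ ∀ x y : EE n, ‖x‖ = 1 → ‖y‖ = 1 → gdist (gOf (θ t)) x y ≤ C' / Real.sqrt Q

/-- LP: the time `τ` and the last stage. -/
def LpStmt : Prop :=
  ∀ (n : ℕ) (C σ : ℝ), 4 ≤ n → 1 ≤ C → 0 < σ → σ ≤ 1 → ∃ C' : ℝ, 1 ≤ C' ∧
    ∀ (T l0 : ℝ) (A θ : ℝ → MF n), 0 < T → 0 < l0 → FFlow (Set.Ico 0 T) A θ →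
      Good T l0 C σ A θ → Blow T A θ → ∃ τ, Last T C' σ τ A θ

/-- VLB: the lower volume bound. -/
def VlbStmt : Prop :=
  ∀ (n : ℕ) (C σ : ℝ), 4 ≤ n → 1 ≤ C → 0 < σ → σ ≤ 1 → ∃ v0 : ℝ, 0 < v0 ∧
    ∀ (T τ : ℝ) (A θ : ℝ → MF n), FFlow (Set.Ico 0 T) A θ → Last T C σ τ A θ →
      (∀ t, 0 ≤ t → t < T → ∀ x, x ≠ 0 → 0 ≤ lamf (A t) (θ t) x) →
      v0 * Real.sqrt τ ^ n ≤ gvol (gOf (θ 0))

/-- DIA: the upper diameter bound. -/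
def DiaStmt : Prop :=
  HeatExStmt → ∀ (n : ℕ) (C σ : ℝ), 4 ≤ n → 1 ≤ C → 0 < σ → σ ≤ 1 →
    ∃ C' : ℝ, 0 < C' ∧ ∀ (T l0 τ : ℝ) (A θ : ℝ → MF n), 0 < l0 → FFlow (Set.Ico 0 T) A θ →
      Good T l0 C σ A θ → Last T C σ τ A θ → gdiam (gOf (θ 0)) ≤ C' * Real.sqrt τ

/-- The theorem: for every `n ≥ 4` and every pinching constant `δ > 1/4`. -/
def MainStmt : Prop :=
  ∀ (n : ℕ) (δ : ℝ), 4 ≤ n → 1 / 4 < δ → ∃ ε : ℝ, 0 < ε ∧ ∀ G : MF n, IsMetric G →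
    (∀ x, ‖x‖ = 1 → PinchedAt δ G x) → ε * gdiam G ^ n ≤ gvol G

end Pool.Agent.Helper73.RFn
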