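import Pool.Agent.Helper73.RFn.GoalsG
import Pool.Agent.Helper73.RFn.GoodN

/-!
# Project RFn, goals H: distances, diameter bound, orthonormal frames, pinching, final theorem
-/

set_option autoImplicit false

open Finset Pool.Agent.Helper47.RFn

namespace Pool.Agent.Helper73.RFn

/-- PACKET LIP (given C1, C6, C7 of CoreN). Lipschitz functions and the distance.

Proof. Template `Pool.Agent.Helper55.RF.lip`. For a Lipschitz curve `c` in the unit sphere (differentiable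
a.e.) `(u ∘ c)' = ∑ c'_i ed i u` (C7), `|∑ v_i ed i u| ≤ sqrt (∑ G⁻¹ e u e u) sqrt (ip G v v)`
(Cauchy-Schwarz for the positive definite `G` and its inverse), `u ∘ c` is Lipschitz, so
`u(y) - u(x) = ∫ (u∘c)'`. Infimum over curves; the set of lengths is nonempty: great circle arcs
`cos(θ t) x + sin(θ t) w` with `|w| = 1`, `w ⊥ x`, `y = cos θ x + sin θ w` (`n ≥ 1`: if `y = ± x` any unit
`w ⊥ x`). -/
def LipStmt : Prop :=
  ∀ (n : ℕ) (G : MF n) (u : EE n → ℝ) (L : ℝ), 1 ≤ n → IsMetric G → Sm u → 0 ≤ L →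
    (∀ x, x ≠ 0 → ∑ i, ∑ j, (G x)⁻¹ i j * ed i u x * ed j u x ≤ L ^ 2) →
    ∀ x y : EE n, ‖x‖ = 1 → ‖y‖ = 1 → |u x - u y| ≤ L * gdist G x y

/-- PACKET DBD (given C6 of CoreN). Distances are bounded and satisfy the triangle inequality.

Proof. Entries of `G` are bounded on the unit sphere (compactness), `speed ≤ C |c'|`; great circle
arcs have length `≤ C π`. Symmetry: `t ↦ c (1 - t)`. Triangle inequality: concatenate (both at double
speed), as in `Pool.Agent.Helper60.RF` (`joins_cat`, `glen_cat`). Short arcs: for unit `x, y` the normalised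
segment `(x + t (y - x))/|x + t (y - x)|` has speed `≤ 2 |y - x|` if `|y - x| ≤ 1/2`. -/
def DbdStmt : Prop :=
  ∀ (n : ℕ) (G : MF n), 1 ≤ n → IsMetric G →
    (∃ B : ℝ, ∀ x y : EE n, ‖x‖ = 1 → ‖y‖ = 1 → gdist G x y ≤ B)
    ∧ (∀ x y : EE n, 0 ≤ gdist G x y)
    ∧ (∀ x y : EE n, ‖x‖ = 1 → ‖y‖ = 1 → gdist G x y ≤ gdiam G)
    ∧ (∀ x y : EE n, ‖x‖ = 1 → ‖y‖ = 1 → ∃ c, Joins c x y)
    ∧ (∀ x y : EE n, gdist G x y = gdist G y x) ∧ (∀ x : EE n, ‖x‖ = 1 → gdist G x x = 0)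
    ∧ (∀ x y z : EE n, ‖x‖ = 1 → ‖y‖ = 1 → ‖z‖ = 1 → gdist G x z ≤ gdist G x y + gdist G y z)
    ∧ (∀ (x y : EE n) (c : ℝ → EE n), Joins c x y → gdist G x y ≤ glen G c)
    ∧ (∃ C : ℝ, ∀ x y : EE n, ‖x‖ = 1 → ‖y‖ = 1 → gdist G x y ≤ C * ‖x - y‖)

/-- PACKET SMO (given DBD, C1, C6 of CoreN). Smoothing of the distance function.

Proof. `D(x) = gdist G p (x/|x|)` (`0` at `x = 0`). (i) `|D x - D y| ≤ gdist G (x/|x|) (y/|y|)`, `D` is
continuous off `0` and bounded (DBD). (ii) Let `ρ ≥ 0` be a smooth bump on `ℝ^{n+1}` supported in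
`|h| < r ≤ 1/4`, `∫ρ = 1`, `f1(x) = ∫ ρ(h) D(x + |x| h) dh = ∫ ρ((y - x)/|x|) D(y) |x|^(-(n+1)) dy`. The first
form shows `0`-homogeneity and `|f1 - D| → 0` uniformly; the second shows `C^∞` on `x ≠ 0` (integrand
smooth in `x`, compactly supported in `y`, `D` bounded and measurable; differentiation under the
integral, cf. the proof of `Pool.Agent.Helper60.RF.smo`). At `0` put `f1 = 0`. (iii) Let `|x| = 1`, `v ⊥ x`,
`γ(s) = x + s v + |x + s v| h`. `D(γ(s)) - D(γ(0))` is at most the length of the curve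
`r ↦ γ(r)/|γ(r)|`, `0 ≤ r ≤ s`, whose velocity is the projection of `γ'(r)/|γ(r)|` on `γ(r)^⊥`; for
`r, s` small it differs from `v` by at most `ε'' |v|` and the point from `x` by at most `ε''`. As
`G` is uniformly continuous on the unit sphere and `ip G x v v ≥ c |v|²`, the speed is at most
`(1+ε') sqrt(ip G x v v)`. So `∑ v_i ed i f1 (x) ≤ (1+ε') sqrt(ip G x v v)` for `v ⊥ x`. Take
`v_i = ∑ (G⁻¹)_ij e_j f1` (orthogonal to `x`: `G⁻¹ x = x` and `∑ x_j e_j f1 = 0`, Euler):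
`∑ G⁻¹ e f1 e f1 ≤ (1+ε')²`. `f = f1/(1+ε')`. -/
def SmoStmt : Prop :=
  ∀ (n : ℕ) (G : MF n) (p : EE n) (ε : ℝ), 1 ≤ n → IsMetric G → ‖p‖ = 1 → 0 < ε →
    ∃ f : EE n → ℝ, Sm f ∧
    (∀ x, x ≠ 0 → ∑ i, ∑ j, (G x)⁻¹ i j * ed i f x * ed j f x ≤ 1) ∧
    ∀ x : EE n, ‖x‖ = 1 → |f x - gdist G p x| ≤ ε

/-- Statement HEC. The heat equation along a flow with curvature `≤ A0/t`. -/
def HecStmt : Prop :=
  ∀ (n : ℕ) (C A0 : ℝ), 4 ≤ n → 0 < C → 0 < A0 → ∃ Bc > 0,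
    ∀ (T l0 : ℝ) (A θ : ℝ → MF n) (u : ℝ → EE n → ℝ), 0 < T → 0 < l0 → FFlow (Set.Ico 0 T) A θ →
    (∀ t, 0 < t → t < T → ∀ x, x ≠ 0 → l0 ≤ lamf (A t) (θ t) x
      ∧ (∀ a b c d, |Rf (A t) (θ t) a b c d x| ≤ C * lamf (A t) (θ t) x)
      ∧ t * lamf (A t) (θ t) x ≤ A0) →
    HeatOn (Set.Ico 0 T) A θ u →
    (∀ x, x ≠ 0 → ggf (A 0) (u 0) (u 0) x ≤ 1) →
    ∀ t, 0 < t → t < T → ∀ x, x ≠ 0 → ggf (A t) (u t) (u t) x ≤ 1
      ∧ t * Lapf (A t) (θ t) (u t) x ^ 2 ≤ Bc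

/-- PACKET DIA (given HEC, LIP, SMO, FHM, DBD). Upper diameter bound.

Proof. Template `Pool.Agent.Helper29.RF.dia`. Let `f` be `Sm` with `∑ (G 0)⁻¹ e f e f ≤ 1` (`= ggf (A 0)`, FHM).
HeatEx on `Icc 0 τ` (FFlow restricted): `u`, `u 0 = f` (off `0`). HEC on `Ico 0 τ` with `A0 = C` (`Last.bef`,
`Good.p1`): `ggf (u t) ≤ 1`, `|Lapf u| ≤ sqrt(Bc/t)` for `0 < t < τ`, hence `|u(τ,x) - f(x)| ≤
2 sqrt(Bc τ)` (`|∂_t u| ≤ sqrt(Bc) t^(-1/2)`), and by continuity `ggf (u τ) ≤ 1`. LIP at `τ`: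
`|u(τ,x) - u(τ,y)| ≤ gdist (gOf (θ τ)) x y ≤ C sqrt τ` (`Last.dis`). So `|f x - f y| ≤ (C + 4 sqrt Bc) sqrt τ`.
Take `f` from SMO for `p = x`, `ε → 0` (`gdist x x = 0`): `gdist x y ≤ (C + 4 sqrt Bc) sqrt τ`. `gdiam` is
a supremum of a nonempty set. -/
def DiaPStmt : Prop := HecStmt → LipStmt → SmoStmt → FhmStmt → DbdStmt → DiaStmt

/-- PACKET CHO (given C1 of CoreN). Every metric has a smooth orthonormal frame (Cholesky).

Proof. Abstract lemma, by induction on the size `k`: let `𝒮` be a set of functions `X → ℝ` containing the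
constants, closed under `+`, `-`, `*`, and with `sqrt f, 1/sqrt f ∈ 𝒮` for `f ∈ 𝒮`, `f > 0`. For every field
`G` of positive definite `k × k` matrices (index `Fin k`) with entries in `𝒮` there are matrix fields
`θ, A` with entries in `𝒮`, `θ θᵀ = G`, `A θ = 1`. Step: write `G = [[a, bᵀ],[b, D]]`, `a > 0` (first index
split off, `Fin.cons`), `G' = D - b bᵀ/a` is positive definite (Schur complement: for a vector `w` take
`(-bᵀw/a, w)` in `G`), `θ = [[√a, 0],[b/√a, θ']]`, `A = [[1/√a, 0],[-A' b/a, A']]`. With `𝒮 = Sm` (C1;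
`1/√` is smooth on `(0,∞)`). `nA`: `θ (θᵀ x) = G x = x`, so `θᵀ x = A x`. -/
def ChoStmt : Prop :=
  ∀ (n : ℕ) (G : MF n), IsMetric G → ∃ A θ : MF n, Frm A θ ∧ ∀ x, gOf θ x = G x

/-- Statement RMK: the frame curvature is the curvature in cartesian coordinates. -/
def RmkStmt : Prop :=
  ∀ (n : ℕ) (A θ : MF n), Frm A θ → ∀ x, x ≠ 0 → ∀ a b c d,
    Kf A θ a b c d x = ‖x‖ ^ 4 * ∑ i, ∑ j, ∑ k, ∑ l,
      Rm (cyl (gOf θ)) i j k l x * A x a i * A x b j * A x c k * A x d l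

/-- PACKET PIN (given RMK, FHM). Pinching of the frame curvature tensor.

Proof. `|x| = 1`. Let `ι` be `Iso (nfc A · x)`, `(u,v)`, `(u',v')` orthonormal pairs in `ℝⁿ`. `û_a = ∑ ι_ai u_i` is a unit
vector orthogonal to `ν`, `U_i = ∑_a û_a A_ai`: `∑ U_i x_i = ∑ û_a ν_a = 0`; `ip (cyl G) x U V = ⟨û, v̂⟩`
(`|x| = 1`, FHM), so `ar = 1` and `U, V` are linearly independent; by RMK
`curv (cyl G) x U V = ∑ Kf_abcd û_a v̂_b v̂_c û_d = ∑ Rf_abcd û_a v̂_b û_c v̂_d` (`Kf` is antisymmetric in the last two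
indices: this is part of the hypothesis `hK`, true for the curvature of a metric connection)
`= K2 (pull ι Rf) u v`. -/
def PinStmt : Prop :=
  ∀ (n : ℕ) (A θ : MF n), Frm A θ → (∀ a b c d x, x ≠ 0 → Kf A θ a b c d x = -Kf A θ a b d c x) →
    ∀ (δ : ℝ) (x : EE n), ‖x‖ = 1 → PinchedAt δ (gOf θ) x → PinF δ A θ x

/-- PACKET FIN (given everything as in the statement). Assembly.

`IsCurv` of the frame tensor and `λ > 0` for pinched tensors are hypotheses (`hcur`, `hlam`).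

Proof. Template `Pool.Agent.Helper97.RF.fin`. Replace `δ` by `min δ 1` (`PinchedAt` is monotone since
`sec > 0`). `C, σ` from CON, `C1 ≥ C` from LP (for `C, σ`), `v0` from VLB, `C2` from DIA (with the constant
`max C C1`: `Good` and `Last` are monotone in the constant, except that in `Good.p3` and `s3` it must be
checked: `C ≤ C'`, `C' ≤ tQ` implies `C ≤ tQ`, and `1/((2+C'e)x) ≤ 1/((2+Ce)x)`).
`ε = v0/C2^n`. Given `G`: CHO: `A0, θ0`; PIN at unit `x`, and at every `x ≠ 0` by homogeneity (`nfc, Rf` are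
`0`-homogeneous, FHM): `PinF δ`. `hlam`: `lamf > 0` for `x ≠ 0`; `l0` = its minimum on the unit sphere
(compact, continuous), `l0 > 0`. Every flow on `Ico 0 T` with these initial values is `Good`; `s2` with
`m = l0` (`p1`) gives `l0 ≤ 1/(2(T-t1))` for all `t1 > 0`, so `T ≤ Tb = 1/(2 l0)`. MAX: a flow with
unbounded `Rf`; by `p1` `|Rf| ≤ C λ`, so `λ` is unbounded, and since it is bounded on `[0,t2]` for every
`t2 < T` (`SmFam`, compactness, homogeneity) `Blow` holds. LP: `τ`. DIA: `gdiam (gOf (θ 0)) ≤ C2 sqrt τ`,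
VLB: `v0 sqrt τ ^ n ≤ gvol (gOf (θ 0))`. `gOf (θ 0) = G` off `0`, and `gdiam`, `gvol` only see `x ≠ 0`. -/
def FinStmt : Prop :=
  LocExStmt → ConStmt → (ExcStmt ∧ ExdStmt ∧ GluStmt ∧ MaxStmt) → LpStmt → VlbStmt → DiaStmt →
    HeatExStmt → ChoStmt → PinStmt → FhmStmt → DbdStmt →
    (∀ (n : ℕ) (A θ : MF n), Frm A θ → ∀ x, x ≠ 0 → Hor (fun a => nfc A a x) (fun a b c d => Rf A θ a b c d x)) →
    (∀ (n : ℕ) (δ : ℝ) (A θ : MF n), 4 ≤ n → 1 / 4 < δ → δ ≤ 1 → Frm A θ → ∀ x, x ≠ 0 → PinF δ A θ x →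
      0 < lamf A θ x) → MainStmt

end Pool.Agent.Helper73.RFn
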