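import Pool.Agent.Helper47.RFn.AsmN
import Pool.Agent.Helper62.RFn.JSR
import Pool.Agent.Helper74.RFn.JSM
import Pool.Agent.Helper60.RFn.FJS
import Pool.Agent.Helper32.RFn.HJS
import Pool.Agent.Helper75.RFn.FHM
import Pool.Agent.Helper35.RFn.BWR
import Pool.Agent.Helper35.RFn.BWG
import Pool.Agent.Helper58.RFn.EXD
import Pool.Agent.Helper77.RFn.GLU
import Pool.Agent.Helper54.RFn.MAX
import Pool.Agent.Helper32.RFn.LIP
import Pool.Agent.Helper64.RFn.DBD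
import Pool.Agent.Helper32.RFn.SMO
import Pool.Agent.Helper79.RFn.DIA
import Pool.Agent.Helper60.RFn.CHO
import Pool.Agent.Helper54.RFn.PIN
import Pool.Agent.Helper38.RFn.FIN
import Pool.Agent.Helper68.RFn.CONP
import Pool.Agent.Helper87.RFn.HEC
import Pool.Agent.Helper68.RFn.EXC
import Pool.Agent.Helper64.RFn.DIC
import Pool.Agent.Helper37.RFn.FRF
import Pool.Agent.Helper67.RFn.NRO
import Pool.Agent.Helper74.RFn.ATO
import Pool.Agent.Helper62.RFn.FLB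
import Pool.Agent.Helper8.RFn.LNK
import Pool.Agent.Helper59.RFn.EM
import Pool.Agent.Helper49.RFn.MOD
import Pool.Agent.Helper81.RFn.YOM
import Pool.Agent.Helper59.RFn.PAIR
import Pool.Agent.Helper64.RFn.MainN

/-!
# Project RFn: assembly of the function level part

`mainN`: the theorem from local existence, the heat equation and the last stage (`LpStmt`).
-/

set_option autoImplicit false

open Finset

namespace Pool.Agent.Helper73.RFn.AsmN

open Pool.Agent.Helper47.RFn Pool.Agent.Helper47.RFn.Asm Pool.Agent.Helper73.RFn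

theorem jsrS : JsrStmt := Pool.Agent.Helper62.RFn.JSR.jsr cC1

theorem jsmS : JsmStmt := Pool.Agent.Helper74.RFn.JSM.jsm

theorem fjsS : FjsStmt := Pool.Agent.Helper60.RFn.FJS.fjs cC2 cC8 cC9 jsmS

theorem hjsS : HjsStmt := Pool.Agent.Helper32.RFn.HJS.hjs cC2 cC8 cC9 jsmS

theorem fhmS : FhmStmt := Pool.Agent.Helper75.RFn.FHM.fhm cC3 cC8

theorem eYOM : Goal_YOM := Pool.Agent.Helper81.RFn.goal_YOM cE0 cINSA cALG0 cALG1 cALG2

theorem ePAIR : Goal_PAIR := goal_PAIR cFRA cGEO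

theorem eFRF : Goal_FRF := Pool.Agent.Helper37.RFn.goal_FRF cC1 cC2 cC3 cSMA cFRA cNUK cLCR cGEO ePAIR

theorem eMOD : Goal_MOD := Pool.Agent.Helper49.RFn.goal_MOD cMA2 cMA3 cMA4 cMA5

theorem eEM : Goal_EM := goal_EM jsrS cE0 cC1 cC3

theorem eLNK : Goal_LNK := goal_LNK eEM cC1 cC2

theorem eFLB : Goal_FLB := goal_FLB eEM eLNK cE0 cFRA ePAIR cINSB eYOM cVIH eFRF

theorem eATO : Goal_ATO := goal_ATO eEM eLNK eFLB cC1 cC3

theorem eNRO : Goal_NRO := Pool.Agent.Helper67.RFn.goal_NRO eEM eFLB cC8 eFRF fhmS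

theorem bwrS : BwrStmt := Pool.Agent.Helper35.RFn.BWR.bwr cC1 cC2 cC4 jsrS

theorem bwgS : BwgStmt := Pool.Agent.Helper35.RFn.BWG.bwg bwrS jsrS cC1 cC2

theorem conS : ConStmt :=
  Pool.Agent.Helper68.RFn.CON.conP eMOD eFLB eNRO cNRD cP2 cP3 cS2 cS3 fjsS fhmS

theorem hecS : HecStmt := Pool.Agent.Helper87.RFn.HEC.hecP eMOD eEM eFLB eNRO cHEA fjsS hjsS fhmS

theorem excS : ExcStmt :=
  Pool.Agent.Helper68.RFn.EXC.excP eMOD eLNK eFLB eATO eNRO cCBB cC1 cC8 fjsS fhmS bwrS bwgS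

theorem exdS : ExdStmt := Pool.Agent.Helper58.RFn.EXD.exd cC1 cC2 cC8 cC11

theorem gluS : GluStmt := Pool.Agent.Helper77.RFn.GLU.glu

theorem maxS : MaxStmt := Pool.Agent.Helper54.RFn.MAX.max

theorem lipS : LipStmt := Pool.Agent.Helper32.RFn.LIP.lip cC6 cC7

theorem dbdS : DbdStmt := Pool.Agent.Helper64.RFn.DBD.dbd

theorem smoS : SmoStmt := Pool.Agent.Helper32.RFn.SMO.smo dbdS cC1 cC6

theorem diaS : DiaStmt := Pool.Agent.Helper79.RFn.DIA.diaP hecS lipS smoS fhmS dbdS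

theorem choS : ChoStmt := Pool.Agent.Helper60.RFn.CHO.cho cC1

theorem rmkS : RmkStmt := Pool.Agent.Helper64.RFn.rmk_of_frf eFRF

theorem pinS : PinStmt := Pool.Agent.Helper54.RFn.PIN.pin rmkS fhmS

theorem vlbS : VlbStmt := Pool.Agent.Helper64.RFn.vlb_d (Pool.Agent.Helper64.RFn.dic_of_frf eFRF)

theorem horS (n : ℕ) (A θ : MF n) (h : Frm A θ) (x : EE n) (hx : x ≠ 0) :
    Hor (fun a => nfc A a x) (fun a b c d => Rf A θ a b c d x) := by
  obtain ⟨-, -, -, -, -, -, -, -, -, -, -, -, -, h1, h2, -, -, -⟩ := eFRF n A θ h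
  exact ⟨h1 x hx, h2 x hx⟩

theorem posS (n : ℕ) (δ : ℝ) (A θ : MF n) (hn : 4 ≤ n) (hδ : 1 / 4 < δ) (hδ1 : δ ≤ 1) (h : Frm A θ)
    (x : EE n) (hx : x ≠ 0) (hp : PinF δ A θ x) : 0 < lamf A θ x := by
  have hH := horS n A θ h x hx
  obtain ⟨-, -, -, -, -, -, -, -, -, -, -, -, hn1, -, -, -, -, -⟩ := eFRF n A θ h
  obtain ⟨ι, hι⟩ := cRP1 n (fun a => nfc A a x) (hn1 x hx)
  obtain ⟨hc, -, -, -, hl, -⟩ := cRP2 n _ ι _ hι hH
  have h1 := (cBS n hn δ _ hδ hδ1 hc (hp ι hι)).1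
  rw [hl] at h1
  have h2 : lamf A θ x = (∑ a, Ric (fun a b c d => Rf A θ a b c d x) a a) / n := by
    unfold lamf Rcf Ric
    rw [one_div, inv_mul_eq_div]
  rw [h2]
  exact h1

/-- the theorem, from local existence, the heat equation and the last stage -/
theorem mainN (loc : LocExStmt) (heat : HeatExStmt) (lp : LpStmt) : MainStmt :=
  Pool.Agent.Helper38.RFn.FIN.fin loc conS ⟨excS, exdS, gluS, maxS⟩ lp vlbS diaS heat choS pinS fhmS dbdS
    horS posS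

end Pool.Agent.Helper73.RFn.AsmN
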