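import Pool.Agent.Helper47.RFn.GoalsE
import Pool.Agent.Helper47.RFn.GoalsB
import Pool.Agent.Helper73.RFn.GoalsH

/-!
# Project RFn, goals I: from the frame bundle algebra to the function level

`F = M.flB A θ` is the frame bundle of a flow in a model `M` (`Helper47/RFn/Flb.lean`). For `x ≠ 0` the
functions `lamf, e2f, ggf, Rf, Lapf` are `0`-homogeneous (FHM), so one may take `|x| = 1`, and by
`Mod.Ax.surj` there is `z` with `M.pt z = x`, `M.fr z = one` (`one ∈ OO n`).
`Helper47.RFn.JS` and `Helper73.RFn.JS` have the same fields: convert by `⟨h.cd, h.hom⟩`.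
-/

set_option autoImplicit false

open Finset Pool.Agent.Helper47.RFn

namespace Pool.Agent.Helper73.RFn

/-- PACKET CON. The maximum principle results at the function level.

Proof. Template `Pool.Agent.Helper83.RF` CONCORE (`n = 3`). Constants: `C_N` from NRD (`n`, `δ`), `σ, ε` from P2, `A1`
from NRD for `ε`, `K0` from P2 for `(C_N, A1)`, `C1, Y0` from P3 for `(C_N, K0, σ)`, `C2` from S3. Put `C` =
maximum of `1, C_N, K0, C1, Y0, C2` and `(n+1)^4 (C_N + 2)^2`. For the flow: `M` from MOD, `JM` of `A, θ` from FJS,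
`F = M.flB A θ`; FLB: `Full`, `IsRF`, dictionary; NRO: all `Bd0` (word `[]` for `R`), `IniT F δ l0`. NRD: `Cone C_N l0`,
`Round ε A1`. P2, P3, S2, S3 give the inequalities for `ev z t`; translate with the dictionary (FLB) at
`z` with `fr z = one`, where `R a b c d` is `Rf`, or for all `z` in the hypotheses (`‖pt z‖ = 1`).
`p1` for `t > 0` is `Cone`, at `t = 0`: `l0 ≤` is a hypothesis, `|Rf| ≤ C_N lamf` is the limit `t → 0` (`SmFam` of FHM, word
`[]`). `p2`: `Ef = Rf - (1/(n-1)) lamf (P P - P P)`, `|Pff| ≤ 1` (`nfc` is a unit vector), so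
`|Ef| ≤ (C_N + 2) lamf`, and `e2f` is a sum of `(n+1)^4` squares. `p3`: `C ≥ Y0, C1, K0`; `t * Q > 0` and `Q > 0`, so
the right sides increase with the constant. `s3`: `Blow` gives the last hypothesis of S3 (`z` with `pt z = x/|x|`);
`1/((2 + C e)(T - t1)) ≤ 1/((2 + C2 e)(T - t1))`. -/
def ConPStmt : Prop :=
  Goal_MOD → Goal_FLB → Goal_NRO → Goal_NRD → Goal_P2 → Goal_P3 → Goal_S2 → Goal_S3 → FjsStmt → FhmStmt → ConStmt

/-- PACKET HEC. The heat equation at the function level.

Proof. Template `Pool/Agent/Helper73/RF/HEC.lean` (`n = 3`). `Bc` from HEA for `(n, (n+1)^4 C, A0)`. `M, F` as in CON; `JS` of `u` from HJS. `R a b c d` of the bundle is a sum of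
`(n+1)^4` terms `u u u u Rf`, `|u| ≤ 1` (`Mod.Ax.frO`), so `Cone ((n+1)^4 C) l0`. `f = M.em u`: `VI`, gradient and
Laplacian from FLB. `Dt f = Lap f`: `ext`; EM (fourth claim) and `HeatOn` with the empty word (interior
points: `HasDerivWithinAt.hasDerivAt`). NRO: `Ini (-gg f f) (-1)`, `Bd0 (Lap f)` (`HeatOn` gives `SmFam`). Evaluate the
conclusion of HEA at `z` with `fr z = one`. -/
def HecPStmt : Prop :=
  Goal_MOD → Goal_EM → Goal_FLB → Goal_NRO → Goal_HEA → FjsStmt → HjsStmt → FhmStmt → HecStmt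

/-- PACKET EXC. Bounded curvature bounds all word derivatives of the frame.

Proof. Template `Pool.Agent.Helper62.RF.exc` (`Pool/Agent/Helper62/RF/EXC.lean`). `M, F` as in CON. `R a b c d` of the
bundle is bounded by `(n+1)^4 K` (FLB, `|fr z a b| ≤ 1`), and CBB with NRO bounds all `Hw w (R a b c d)` on
`Z × (0,T)`. Let `𝒲` be the set of `X ∈ B` such that all words in the `H a`, `V k l` applied to `X` are bounded on
`Z × (0,T)`; `R a b c d ∈ 𝒲`, since `V k l (Hw w (R a b c d))` is a linear combination of `Hw w' (R a' b' c' d')`,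
`|w'| = |w|` (`VH`, `VR`). `𝒲` is a ring closed under `H, V`; `Ric a b, S a b, Y a c d ∈ 𝒲`.
(a) ATO: `ed i (at1 X) = ∑_b θ_ib (at1 (H_b X) - ½ ∑_cd Gamc_bcd at1 (V_cd X))`.
(b) If all `θ_ia`, `Gamc_bcd` are in `BW m` then `at1 X ∈ BW (m+1)` for all `X ∈ 𝒲`: induction on `m` with BWR
and (a) (`at1 X ∈ BW 0` by ATO).
(c) If `at1 X ∈ BW m` for all `X ∈ 𝒲` then all `A_ai, θ_ia, Gamc_bcd` are in `BW m`: BWG for the entries of `A`
(`∂_t A_ai = ∑ Rcf_ab A_bi`, `Rcf_ab = at1 (Ric a b)` by ATO), of `θ` (`flt`), and of `Gamc`: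
`∂_t Γ_bcd = ∑_f Rcf_bf Γ_fcd + at1 (Y b c d)` (ATO). Index sets `Fin (n+1) × Fin (n+1)` etc.: use
`Fintype.equivFin`, or apply BWG for fixed last indices (`p` is the same matrix). Near `t = 0` all words are
bounded: the families are `SmFam` on `Ico 0 T` (`flA`, `flt`, C8 for `Gamc`), `Ew w` is `0`-homogeneous, the sphere is
compact.
Start `m = 0` by (c). `Rcf` by (b). `JS` of `Gamc`: LNK. -/
def ExcPStmt : Prop :=
  Goal_MOD → Goal_LNK → Goal_FLB → Goal_ATO → Goal_NRO → Goal_CBB → Goal_C1 → Goal_C8 → FjsStmt → FhmStmt →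
    BwrStmt → BwgStmt → ExcStmt

end Pool.Agent.Helper73.RFn
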