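import Pool.Agent.Helper73.RFn.AsmH
import Pool.Agent.Helper36.RN.Main
import Pool.Agent.Helper36.RN.Heat

/-!
# Project RFn: the final assembly
-/

set_option autoImplicit false

namespace Pool.Agent.Helper73.RFn

/-- for every `n ≥ 4` and `δ > 1/4` there is no collapse of pointwise `δ`-pinched metrics on the `n`-sphere -/
theorem main : MainStmt :=
  AsmN.mainH Pool.Agent.Helper36.RN.locEx Pool.Agent.Helper36.RN.heatEx

end Pool.Agent.Helper73.RFn
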