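import Pool.Agent.Helper47.RFn.FlowN

/-!
# Project RFn: jointly smooth families
-/

set_option autoImplicit false

open Finset Pool.Agent.Helper47.RFn

namespace Pool.Agent.Helper73.RFn

/-- jointly smooth family of functions on `Sⁿ`, `0 < t < T` -/
structure JS {n : ℕ} (T : ℝ) (u : ℝ → EE n → ℝ) : Prop where
  cd : ContDiffOn ℝ oo (fun p : EE n × ℝ => u p.2 p.1) {p | p.1 ≠ 0 ∧ 0 < p.2 ∧ p.2 < T}
  hom : ∀ t, 0 < t → t < T → Hom0 (u t)

/-- jointly smooth matrix family -/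
def JM {n : ℕ} (T : ℝ) (A : ℝ → MF n) : Prop := ∀ i j, JS T (fun t x => A t x i j)

/-- families with all time derivatives -/
def SmInf {n : ℕ} (I : Set ℝ) (f : ℝ → EE n → ℝ) : Prop :=
  ∃ F : ℕ → ℝ → EE n → ℝ, F 0 = f ∧ ∀ k, SmFam1 I (F k) (F (k + 1))

/-- PACKET JSR. Ring properties of `JS`.

Proof. `ContDiffOn` rules on the open set `{x ≠ 0} × (0,T)`; `ed i (u t)` is `‖x‖` times the
derivative of the joint function in the direction `(e_i, 0)`; homogeneity as in C1 of CoreN. The time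
derivative is the derivative in the direction `(0,1)`; homogeneous because the difference quotients
are. The last claim: second derivatives are symmetric (or: `deriv` of the smooth function
`ed i (u ·)`; chain rule for `fderiv` of the smooth joint function). -/
def JsrStmt : Prop :=
  ∀ (n : ℕ) (T : ℝ),
    (∀ u v : ℝ → EE n → ℝ, JS T u → JS T v → JS T (fun t x => u t x * v t x)
      ∧ JS T (fun t x => u t x + v t x) ∧ JS T (fun t x => u t x - v t x) ∧ JS T (fun t x => -u t x))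
    ∧ (∀ c : ℝ, JS T (fun _ (_ : EE n) => c)) ∧ JS T (fun t (_ : EE n) => t)
    ∧ (∀ f : EE n → ℝ, Sm f → JS T (fun _ => f)) ∧ (∀ i, JS T (fun _ => (nn i : EE n → ℝ)))
    ∧ (∀ (ι : Type) (s : Finset ι) (f : ι → ℝ → EE n → ℝ), (∀ a ∈ s, JS T (f a)) →
        JS T (fun t x => ∑ a ∈ s, f a t x))
    ∧ (∀ (u : ℝ → EE n → ℝ) (i : Fin (n + 1)), JS T u → JS T (fun t => ed i (u t)))
    ∧ (∀ (u : ℝ → EE n → ℝ) (w : List (Fin (n + 1))), JS T u → JS T (fun t => Ew w (u t)))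
    ∧ (∀ u : ℝ → EE n → ℝ, JS T u → ∀ t, 0 < t → t < T → Sm (u t))
    ∧ (∀ u : ℝ → EE n → ℝ, JS T u → ∃ u' : ℝ → EE n → ℝ, JS T u' ∧
        ∀ (w : List (Fin (n + 1))) (t : ℝ), 0 < t → t < T → ∀ x, x ≠ 0 →
          HasDerivAt (fun r => Ew w (u r) x) (Ew w (u' t) x) t)

/-- PACKET JSM. Smooth families with all time derivatives are jointly smooth.

Proof. As `Pool.Agent.Helper93.RF.jsm` (`n = 3`). Let `𝒮` be the class of all families `Ew w (F k t)`, `F` a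
sequence as in `SmInf`. Every member `f` is continuous in `(x,t)` on `{0}ᶜ × (0,T)`, differentiable in
`x` (`Sm`) with `|x| ∂_i f = ed i f ∈ 𝒮`, differentiable in `t` with derivative in `𝒮`. The partial
derivatives exist and are continuous, hence `f` is `C¹` jointly, with `fderiv` a combination with
smooth coefficients (`1/‖x‖`) of members of `𝒮`. Induction on `k`: all members are `C^k` on
`{0}ᶜ × (0,T)` (`contDiffOn_succ_iff_fderiv_of_isOpen`). -/
def JsmStmt : Prop :=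
  ∀ (n : ℕ) (T : ℝ) (I : Set ℝ) (f : ℝ → EE n → ℝ), Set.Ioo 0 T ⊆ I → SmInf I f → JS T f

/-- PACKET FJS (given C1, C2, C8, C9, JSM). Flows are jointly smooth.

Proof. As `Pool.Agent.Helper10.RF.fjs`. Let `𝒫` be the smallest set of families `ℝ → EE n → ℝ` that
contains the constants, all `nn i`, all `A a i`, all `θ i a`, and is closed under `+`, `*`, `-`, finite sums, real
multiples and all `ed i` (an inductive predicate). `Rcf (A t) (θ t) a b` is in `𝒫` (as a family, unfold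
`Fdc, nfc, Cc, Gamc, Kf, Rf, Rcf`). Claim: for every `f ∈ 𝒫` there is `f' ∈ 𝒫` with `SmFam1 I f f'`:
induction over `𝒫`, generators by `flA, flt`, the rules by C9. So every `f ∈ 𝒫` satisfies `SmInf I f`
(iterate the choice), and JSM gives `JS`. -/
def FjsStmt : Prop :=
  ∀ (n : ℕ) (T : ℝ) (I : Set ℝ) (A θ : ℝ → MF n), 0 < T → Set.Ioo 0 T ⊆ I → FFlow I A θ →
    JM T A ∧ JM T θ ∧ JM T (fun t x => Matrix.of (fun a b => Rcf (A t) (θ t) a b x))

/-- PACKET HJS (as FJS). Solutions of the heat equation along a flow are jointly smooth.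

Proof. As FJS with `u` as additional generator: `Lapf (A t) (θ t) (u t) ∈ 𝒫`. -/
def HjsStmt : Prop :=
  ∀ (n : ℕ) (T : ℝ) (A θ : ℝ → MF n) (u : ℝ → EE n → ℝ), 0 < T → FFlow (Set.Ico 0 T) A θ →
    HeatOn (Set.Ico 0 T) A θ u → JS T u

/-- PACKET FHM (given C1, C6, C8). Elementary facts about a frame and a flow.

Proof. `θ A = 1` (`Matrix.mul_eq_one_comm`). `gOf θ` is positive definite: `θ` is invertible; `gOf θ x x =
θ (θᵀ x) = θ (A x) = x` by `nA`. `(θ θᵀ)⁻¹ = Aᵀ A`. All functions built from `A, θ` by sums, products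
and `ed` are `Sm` (C1), and for a flow `SmFam` (C8). `ggf`: `∑_a (F_a u)(F_a v) = ∑ (AᵀA)_ij e_i u e_j v`. -/
def FhmStmt : Prop :=
  ∀ n : ℕ,
    (∀ A θ : MF n, Frm A θ →
      IsMetric (gOf θ) ∧ (∀ x, θ x * A x = 1) ∧ (∀ x, (gOf θ x)⁻¹ = (A x).transpose * A x)
      ∧ (∀ a b c d, Sm (Rf A θ a b c d)) ∧ (∀ a b, Sm (Rcf A θ a b)) ∧ Sm (lamf A θ)
      ∧ (∀ a b c d, Sm (Ef A θ a b c d)) ∧ Sm (e2f A θ) ∧ (∀ a, Sm (nfc A a))
      ∧ (∀ u : EE n → ℝ, Sm u → Sm (Lapf A θ u) ∧ ∀ a, Sm (Fdc A a u))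
      ∧ (∀ u v : EE n → ℝ, Sm u → Sm v → Sm (ggf A u v)
          ∧ ∀ x, ggf A u v x = ∑ i, ∑ j, (gOf θ x)⁻¹ i j * ed i u x * ed j v x)
      ∧ (∀ x, x ≠ 0 → ∑ a, nfc A a x ^ 2 = 1)
      ∧ (∀ x, x ≠ 0 → ∀ a, nfc A a x = ∑ i, θ x i a * nn i x)
      ∧ (∀ x, ∀ a b, ip (gOf θ) x (A x a) (A x b) = if a = b then 1 else 0)
      ∧ (∀ x, ∀ v : Fin (n + 1) → ℝ, ip (gOf θ) x v v = ∑ a, (∑ i, θ x i a * v i) ^ 2))
    ∧ (∀ (I : Set ℝ) (A θ : ℝ → MF n), FFlow I A θ →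
      (∀ t ∈ I, Frm (A t) (θ t))
      ∧ (∀ a b c d, SmFam I (fun t => Rf (A t) (θ t) a b c d))
      ∧ (∀ a b, SmFam I (fun t => Rcf (A t) (θ t) a b)) ∧ SmFam I (fun t => lamf (A t) (θ t))
      ∧ (∀ a b c d, SmFam I (fun t => Ef (A t) (θ t) a b c d)) ∧ SmFam I (fun t => e2f (A t) (θ t))
      ∧ (∀ a, SmFam I (fun t => nfc (A t) a))
      ∧ (∀ u v : ℝ → EE n → ℝ, SmFam I u → SmFam I v → SmFam I (fun t => ggf (A t) (u t) (v t))
          ∧ SmFam I (fun t => Lapf (A t) (θ t) (u t))))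

end Pool.Agent.Helper73.RFn
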