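import Pool.Agent.Helper73.RFn.AsmN
import Pool.Agent.Helper19.RFn.MainM

/-!
# Project RFn: assembly; what remains is local existence and the heat equation
-/

set_option autoImplicit false

namespace Pool.Agent.Helper73.RFn.AsmN

open Pool.Agent.Helper47.RFn Pool.Agent.Helper47.RFn.Asm Pool.Agent.Helper73.RFn

/-- the last stage from the existence of solutions of the heat equation -/
theorem lpS (heat : HeatExStmt) : LpStmt :=
  Pool.Agent.Helper19.RFn.lp_m eMOD eEM eLNK eFLB eNRO fjsS hjsS heat hecS

/-- the theorem, from local existence and the heat equation -/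
theorem mainH (loc : LocExStmt) (heat : HeatExStmt) : MainStmt := mainN loc heat (lpS heat)

end Pool.Agent.Helper73.RFn.AsmN
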