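import Pool.Agent.Helper73.RFn.JSn

/-!
# Project RFn, goals G: word derivative bounds, extension, glueing, the maximal flow

General dimension version of `Helper73/RF/GoalsE.lean` (second half) and `GoalsF.lean` (MAX).
-/

set_option autoImplicit false

open Finset Pool.Agent.Helper47.RFn

namespace Pool.Agent.Helper73.RFn

/-- the values of all word derivatives up to length `m` are bounded -/
def BW {n : ℕ} (T : ℝ) (m : ℕ) (u : ℝ → EE n → ℝ) : Prop :=
  ∀ w : List (Fin (n + 1)), w.length ≤ m →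
    ∃ C, ∀ t, 0 < t → t < T → ∀ x, x ≠ 0 → |Ew w (u t) x| ≤ C

/-- PACKET BWR. Ring properties of `BW` (families smooth in `x`).

Proof. Leibniz along words, induction on `m`; `Ew (w ++ [i]) f = Ew w (ed i f)`. Template:
`Pool.Agent.Helper27.RF.bwr`. -/
def BwrStmt : Prop :=
  ∀ (n : ℕ) (T : ℝ) (m : ℕ) (u v : ℝ → EE n → ℝ), JS T u → JS T v →
    (BW T m u → BW T m v → BW T m (fun t x => u t x * v t x) ∧ BW T m (fun t x => u t x + v t x)
      ∧ BW T m (fun t x => u t x - v t x) ∧ BW T m (fun t x => -u t x))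
    ∧ (∀ c : ℝ, BW T m (fun _ (_ : EE n) => c))
    ∧ (∀ i, BW T m (fun _ => (nn i : EE n → ℝ)))
    ∧ (BW T 0 u → (∀ i, BW T m (fun t => ed i (u t))) → BW T (m + 1) u)
    ∧ (BW T (m + 1) u → ∀ i, BW T m (fun t => ed i (u t)))

/-- PACKET BWG (given BWR, JSR). Linear systems of ODE in `t` with parameters.

Proof. Template `Pool.Agent.Helper80.RF.bwg`. Induction on the length of the word `w` (`≤ m`), for all
`j` at once. `y_j = Ew w (u_j)` is differentiable in `t` with `∂_t y_j = Ew w (∑ p_jl u_l + r_j) =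
∑ p_jl y_l + (terms with fewer derivatives on `u`, bounded by induction)` (JSR: `∂_t` commutes with
`Ew w`). On `[t0/2, T)`, `|∂_t y| ≤ C |y| + C` with the vector norm, so Gronwall (`T < ∞`), starting at
`t0/2` where `y` is bounded by hypothesis; for `t < t0` the hypothesis. -/
def BwgStmt : Prop :=
  ∀ (n : ℕ) (T : ℝ) (m N : ℕ) (u : Fin N → ℝ → EE n → ℝ) (p : Fin N → Fin N → ℝ → EE n → ℝ)
    (r : Fin N → ℝ → EE n → ℝ), 0 < T → (∀ j, JS T (u j)) → (∀ j l, JS T (p j l)) →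
    (∀ j, JS T (r j)) → (∀ j l, BW T m (p j l)) → (∀ j, BW T m (r j)) →
    (∀ j t, 0 < t → t < T → ∀ x, x ≠ 0 →
      HasDerivAt (fun r' => u j r' x) (∑ l, p j l t x * u l t x + r j t x) t) →
    (∀ j w, ∃ C t0 : ℝ, 0 < t0 ∧ t0 < T ∧ ∀ t, 0 < t → t < t0 → ∀ x, x ≠ 0 →
      |Ew w (u j t) x| ≤ C) →
    ∀ j, BW T m (u j)

/-- Statement EXC. Bounded curvature bounds all word derivatives of the frame. -/
def ExcStmt : Prop :=
  ∀ (n : ℕ) (T : ℝ) (A θ : ℝ → MF n), 2 ≤ n → 0 < T → FFlow (Set.Ico 0 T) A θ → ∀ K : ℝ,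
    (∀ t, 0 ≤ t → t < T → ∀ x, x ≠ 0 → ∀ a b c d, |Rf (A t) (θ t) a b c d x| ≤ K) →
    ∀ m, (∀ a i, BW T m (fun t x => A t x a i)) ∧ (∀ i a, BW T m (fun t x => θ t x i a))
      ∧ (∀ a b, BW T m (fun t x => Rcf (A t) (θ t) a b x))

/-- PACKET EXD. The limit.

Proof. Template `Pool.Agent.Helper2.RF.exd`. For every word `w` and entry `y = Ew w A_ai` (or `θ`):
`∂_t y` is bounded on `(T/2,T)` (it is `Ew w` of `∑ Rcf A`, Leibniz), so `y(t,x)` converges as `t → T`,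
uniformly in `x ≠ 0`. The limits of the word derivatives are word derivatives of the limit (C11 of
CoreN, or uniform limits of derivatives), so `A T`, `θ T` (the limits, for `x ≠ 0`; at `x = 0`
put `A T 0 = θ T 0 = 1`; `0`-homogeneity only asks `f (r • 0) = f 0`) are `Sm`, `A θ = 1`, `nA` passes to
the limit (at `x = 0` it is trivial), and all word derivatives are continuous on `[0,T] × {0}ᶜ`
(uniform convergence). The one-sided time derivative at `T` of `Ew w A_ai` is the limit of the time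
derivatives, which is `Ew w` of the right side (`Rcf` is a polynomial in `A, θ, nn` and their
derivatives). -/
def ExdStmt : Prop :=
  ∀ (n : ℕ) (T : ℝ) (A θ : ℝ → MF n), 0 < T → FFlow (Set.Ico 0 T) A θ →
    (∀ m, (∀ a i, BW T m (fun t x => A t x a i)) ∧ (∀ i a, BW T m (fun t x => θ t x i a))
      ∧ (∀ a b, BW T m (fun t x => Rcf (A t) (θ t) a b x))) →
    ∃ A' θ' : ℝ → MF n, FFlow (Set.Icc 0 T) A' θ' ∧ (∀ t, 0 ≤ t → t < T → ∀ x, x ≠ 0 →
      A' t x = A t x ∧ θ' t x = θ t x)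

/-- PACKET GLU. Glueing.

Proof. Template `Pool.Agent.Helper80.RF.glu`. `A'' t x = A t x` for `t ≤ T`, `A' (t - T) x` for `t > T` and
`x ≠ 0` (at `x = 0` keep an invertible pair). Word derivatives at `x ≠ 0` only see `x ≠ 0`. At `t = T`
the two one-sided derivatives agree, because both are the right side of the equation, and the word
derivatives agree there. -/
def GluStmt : Prop :=
  ∀ (n : ℕ) (T τ : ℝ) (A θ A' θ' : ℝ → MF n), 0 < T → 0 < τ → FFlow (Set.Icc 0 T) A θ →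
    FFlow (Set.Icc 0 τ) A' θ' → (∀ x, x ≠ 0 → A' 0 x = A T x ∧ θ' 0 x = θ T x) →
    ∃ A'' θ'' : ℝ → MF n, FFlow (Set.Icc 0 (T + τ)) A'' θ'' ∧ (∀ t, 0 ≤ t → t ≤ T → ∀ x, x ≠ 0 →
      A'' t x = A t x ∧ θ'' t x = θ t x)

/-- PACKET MAX (given LocExStmt, EXC, EXD, GLU as in the statement). The maximal flow.

Proof. Template `Pool.Agent.Helper9.RF.max`. Zorn's lemma on triples `(T,A,θ)`, `0 < T ≤ Tb`,
`FFlow (Ico 0 T) A θ`, initial values `A0, θ0` off `0`; `(T,A,θ) ≤ (T',A',θ')` if `T ≤ T'` and they agree for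
`0 ≤ t < T`, `x ≠ 0`. Upper bound of a chain: `T* = sup T_i`, `A* t := A_i t` for a chosen `i` with
`t < T_i`. Nonempty: LocEx (restricted to `Ico 0 τ`). Let `(T,A,θ)` be maximal. If `|Rf| ≤ K` on
`[0,T)`: EXC, EXD give a flow on `Icc 0 T`, LocEx at `(A T, θ T)` (a `Frm`) and GLU a flow on
`Icc 0 (T+τ)`, so `T + τ ≤ Tb` by `hTb` and it is strictly larger: contradiction. -/
def MaxStmt : Prop :=
  LocExStmt → ExcStmt → ExdStmt → GluStmt → ∀ (n : ℕ) (A0 θ0 : MF n) (Tb : ℝ), 2 ≤ n → Frm A0 θ0 →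
    (∀ (T : ℝ) (A θ : ℝ → MF n), 0 < T → FFlow (Set.Ico 0 T) A θ →
      (∀ x, x ≠ 0 → A 0 x = A0 x ∧ θ 0 x = θ0 x) → T ≤ Tb) →
    ∃ (T : ℝ) (A θ : ℝ → MF n), 0 < T ∧ FFlow (Set.Ico 0 T) A θ ∧
      (∀ x, x ≠ 0 → A 0 x = A0 x ∧ θ 0 x = θ0 x) ∧
      ∀ K : ℝ, ∃ t x, 0 ≤ t ∧ t < T ∧ x ≠ 0 ∧ ∃ a b c d, K < |Rf (A t) (θ t) a b c d x|

end Pool.Agent.Helper73.RFn
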