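import Pool.Agent.Helper73.RFn.SPdefs
import Pool.Agent.Helper73.RFn.GoodN
import Pool.Agent.Helper64.RFn.DBD

/-!
# From `MainStmt` to the final statement about smooth metrics on the `n`-sphere
-/

set_option autoImplicit false

namespace Pool.Agent.Helper73.SP

open Finset MeasureTheory

open Pool.Agent

theorem pinchedAt_eq {n : ℕ} : @PinchedAt n = @Helper47.RFn.PinchedAt n := rfl

theorem gdist_eq {n : ℕ} : @gdist n = @Helper47.RFn.gdist n := rfl

theorem gdiam_eq {n : ℕ} : @gdiam n = @Helper47.RFn.gdiam n := rfl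

/-! ### changing the value at `0` -/

theorem pd_congr {n : ℕ} {f f' : EE n → ℝ} (h : ∀ x, x ≠ 0 → f x = f' x) (i : Fin (n + 1)) (x : EE n)
    (hx : x ≠ 0) : pd i f x = pd i f' x := by
  unfold pd
  have h1 : f =ᶠ[nhds x] f' := by
    filter_upwards [isOpen_compl_singleton.mem_nhds hx] with y hy
    exact h y hy
  rw [h1.fderiv_eq]

section

variable {n : ℕ} {g g' : MF n} (h : ∀ x, x ≠ 0 → g x = g' x)

include h

theorem cyl_congr (x : EE n) (hx : x ≠ 0) : cyl g x = cyl g' x := by
  unfold cyl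
  rw [h x hx]

theorem Chr_congr (i j k : Fin (n + 1)) (x : EE n) (hx : x ≠ 0) : Chr g i j k x = Chr g' i j k x := by
  unfold Chr
  rw [h x hx]
  congr 1
  refine Finset.sum_congr rfl fun l _ => ?_
  rw [pd_congr (f := fun y => g y j l) (f' := fun y => g' y j l) (fun y hy => by rw [h y hy]) i x hx,
    pd_congr (f := fun y => g y i l) (f' := fun y => g' y i l) (fun y hy => by rw [h y hy]) j x hx,
    pd_congr (f := fun y => g y i j) (f' := fun y => g' y i j) (fun y hy => by rw [h y hy]) l x hx]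

theorem Rup_congr (i j k l : Fin (n + 1)) (x : EE n) (hx : x ≠ 0) : Rup g i j k l x = Rup g' i j k l x := by
  unfold Rup
  rw [pd_congr (fun y hy => Chr_congr h j k l y hy) i x hx,
    pd_congr (fun y hy => Chr_congr h i k l y hy) j x hx]
  congr 1
  refine Finset.sum_congr rfl fun m _ => ?_
  rw [Chr_congr h j k m x hx, Chr_congr h i m l x hx, Chr_congr h i k m x hx, Chr_congr h j m l x hx]

theorem Rm_congr (i j k l : Fin (n + 1)) (x : EE n) (hx : x ≠ 0) : Rm g i j k l x = Rm g' i j k l x := by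
  unfold Rm
  rw [h x hx]
  exact Finset.sum_congr rfl fun m _ => by rw [Rup_congr h i j k m x hx]

theorem sec_congr (x : EE n) (hx : x ≠ 0) (u v : Fin (n + 1) → ℝ) : sec g x u v = sec g' x u v := by
  unfold sec curv ar ip
  rw [h x hx]
  simp only [Rm_congr h _ _ _ _ x hx]

theorem PinchedAt_congr (δ : ℝ) (x : EE n) (hx : x ≠ 0) : PinchedAt δ g x ↔ PinchedAt δ g' x := by
  unfold PinchedAt
  simp only [sec_congr (cyl_congr h) x hx]

theorem speed_congr (c : ℝ → EE n) (hc : ∀ t, ‖c t‖ = 1) (t : ℝ) : speed g c t = speed g' c t := by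
  unfold speed ip
  rw [h (c t) (by intro h0; have := hc t; rw [h0, norm_zero] at this; exact zero_ne_one this)]

theorem gdist_congr (x y : EE n) : gdist g x y = gdist g' x y := by
  unfold gdist
  congr 1
  ext r
  simp only [Set.mem_ofPred_eq]
  refine exists_congr fun c => and_congr_right fun hc => ?_
  have : glen g c = glen g' c := by
    unfold glen
    congr 1
    funext t
    exact speed_congr h c hc.2.1 t
  rw [this]

theorem gdiam_congr : gdiam g = gdiam g' := by
  unfold gdiam
  simp only [gdist_congr h]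

end

/-! ### the metric with value `1` at `0` -/

open Classical in
/-- the metric with value `1` at `0` -/
noncomputable def gz {n : ℕ} (g : MF n) : MF n := fun x => if x = 0 then 1 else g x

theorem gz_eq {n : ℕ} (g : MF n) (x : EE n) (hx : x ≠ 0) : gz g x = g x := by
  unfold gz
  rw [if_neg hx]

theorem isMetric {n : ℕ} (M : RMetric n) : Helper47.RFn.IsMetric (gz M.g) := by
  refine ⟨fun i j => ⟨?_, ?_⟩, fun x => ?_, fun x i => ?_⟩
  · exact (M.smooth i j).congr fun x hx => by
      show gz M.g x i j = M.g x i j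
      rw [gz_eq M.g x hx]
  · intro r x hr
    show gz M.g (r • x) i j = gz M.g x i j
    by_cases hx : x = 0
    · rw [hx, smul_zero]
    · rw [gz_eq M.g x hx, gz_eq M.g _ (smul_ne_zero hr.ne' hx), M.rays r x hr]
  · by_cases hx : x = 0
    · unfold gz
      rw [if_pos hx]
      exact Matrix.PosDef.one
    · rw [gz_eq M.g x hx]
      have hn : 0 < ‖x‖ := norm_pos_iff.mpr hx
      have h1 := M.rays ‖x‖⁻¹ x (inv_pos.mpr hn)
      rw [← h1]
      apply M.posDef
      rw [norm_smul, norm_inv, norm_norm, inv_mul_cancel₀ hn.ne']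
  · by_cases hx : x = 0
    · subst hx
      simp
    · rw [gz_eq M.g x hx]
      have hn : 0 < ‖x‖ := norm_pos_iff.mpr hx
      have h1 := M.rays ‖x‖⁻¹ x (inv_pos.mpr hn)
      have h2 := M.normal (‖x‖⁻¹ • x) (by rw [norm_smul, norm_inv, norm_norm, inv_mul_cancel₀ hn.ne']) i
      rw [h1] at h2
      simp only [PiLp.smul_apply, smul_eq_mul] at h2
      have h3 : ∑ j, M.g x i j * (‖x‖⁻¹ * x j) = ‖x‖⁻¹ * ∑ j, M.g x i j * x j := by
        rw [Finset.mul_sum]
        exact Finset.sum_congr rfl fun j _ => by ring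
      rw [h3] at h2
      exact mul_left_cancel₀ (inv_ne_zero hn.ne') h2

theorem pinched {n : ℕ} (M : RMetric n) (δ : ℝ) (h : ∀ x : EE n, ‖x‖ = 1 → PinchedAt δ M.g x) (x : EE n)
    (hx : ‖x‖ = 1) : PinchedAt δ (gz M.g) x := by
  have h0 : x ≠ 0 := by
    intro h0
    rw [h0, norm_zero] at hx
    exact zero_ne_one hx
  rw [PinchedAt_congr (gz_eq M.g) δ _ h0]
  exact h _ hx

/-! ### the volume -/

section

open Metric Set

theorem ball_integral {n : ℕ} (f : EE n → ℝ) (hf : ∀ (r : ℝ) (x : EE n), 0 < r → f (r • x) = f x) :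
    ((n : ℝ) + 1) * ∫ x in ball (0 : EE n) 1, f x
      = ∫ x : sphere (0 : EE n) 1, f x ∂(volume : Measure (EE n)).toSphere := by
  set G : sphere (0 : EE n) 1 × Ioi (0 : ℝ) → ℝ :=
    fun p => f p.1 * (Iio (⟨1, mem_Ioi.mpr one_pos⟩ : Ioi (0 : ℝ))).indicator
      (fun _ => (1 : ℝ)) p.2 with hG
  have h1 : ∫ x in ball (0 : EE n) 1, f x = ∫ x : ({(0 : EE n)}ᶜ : Set (EE n)),
      (ball (0 : EE n) 1).indicator f x ∂((volume : Measure (EE n)).comap (↑)) := by
    rw [integral_subtype_comap (measurableSet_singleton _).compl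
      fun x => (ball (0 : EE n) 1).indicator f x, restrict_compl_singleton,
      integral_indicator measurableSet_ball]
  have h2 : ∀ x : ({(0 : EE n)}ᶜ : Set (EE n)),
      (ball (0 : EE n) 1).indicator f x = G (homeomorphUnitSphereProd (EE n) x) := by
    intro x
    have hx : (x : EE n) ≠ 0 := x.2
    have hn : 0 < ‖(x : EE n)‖ := norm_pos_iff.mpr hx
    have e1 : f ((homeomorphUnitSphereProd (EE n) x).1 : EE n) = f x := by
      rw [homeomorphUnitSphereProd_apply_fst_coe, hf _ _ (inv_pos.mpr hn)]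
    simp only [hG]
    rw [e1]
    by_cases hb : ‖(x : EE n)‖ < 1
    · rw [indicator_of_mem (by simpa using hb), indicator_of_mem, mul_one]
      show (homeomorphUnitSphereProd (EE n) x).2 < ⟨1, mem_Ioi.mpr one_pos⟩
      rw [← Subtype.coe_lt_coe, homeomorphUnitSphereProd_apply_snd_coe]
      exact hb
    · rw [indicator_of_notMem (by simpa using hb), indicator_of_notMem, mul_zero]
      show ¬ (homeomorphUnitSphereProd (EE n) x).2 < ⟨1, mem_Ioi.mpr one_pos⟩
      rw [← Subtype.coe_lt_coe, homeomorphUnitSphereProd_apply_snd_coe]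
      exact hb
  have h3 : ∫ x : ({(0 : EE n)}ᶜ : Set (EE n)), G (homeomorphUnitSphereProd (EE n) x)
      ∂((volume : Measure (EE n)).comap (↑))
      = ∫ p, G p ∂((volume : Measure (EE n)).toSphere.prod
          (Measure.volumeIoiPow (Module.finrank ℝ (EE n) - 1))) :=
    (volume : Measure (EE n)).measurePreserving_homeomorphUnitSphereProd.integral_comp
      (Homeomorph.measurableEmbedding _) G
  have h4 : ∫ p, G p ∂((volume : Measure (EE n)).toSphere.prod
          (Measure.volumeIoiPow (Module.finrank ℝ (EE n) - 1)))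
      = (∫ x : sphere (0 : EE n) 1, f x ∂(volume : Measure (EE n)).toSphere) * (1 / ((n : ℝ) + 1)) := by
    simp only [hG]
    rw [integral_prod_mul (fun x : sphere (0 : EE n) 1 => f x)
      (fun r => (Iio (⟨1, mem_Ioi.mpr one_pos⟩ : Ioi (0 : ℝ))).indicator (fun _ => (1 : ℝ)) r)]
    congr 1
    rw [integral_indicator measurableSet_Iio, setIntegral_const, Measure.real,
      Measure.volumeIoiPow_apply_Iio, finrank_euclideanSpace_fin]
    simp only [Nat.add_sub_cancel, one_pow, smul_eq_mul, mul_one]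
    rw [ENNReal.toReal_ofReal (by positivity)]
  have hn1 : (n : ℝ) + 1 ≠ 0 := by positivity
  rw [h1, integral_congr_ae (Filter.Eventually.of_forall h2), h3, h4]
  field_simp

end

theorem gvol_eq {n : ℕ} (M : RMetric n) : Helper47.RFn.gvol (gz M.g) = gvol M.g := by
  unfold Helper47.RFn.gvol Helper47.RFn.integ gvol
  rw [ball_integral (fun x => Real.sqrt (gz M.g x).det) (fun r x hr => by
    show Real.sqrt (gz M.g (r • x)).det = Real.sqrt (gz M.g x).det
    have : gz M.g (r • x) = gz M.g x := by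
      ext i j
      exact ((isMetric M).sm i j).hom r x hr
    rw [this])]
  have h2 : ∀ y : Metric.sphere (0 : EE n) 1,
      Real.sqrt (gz M.g (y : EE n)).det = Real.sqrt (M.g (y : EE n)).det := by
    intro y
    rw [gz_eq M.g (y : EE n)]
    intro h0
    have h3 : ‖(y : EE n)‖ = 1 := norm_eq_of_mem_sphere y
    rw [h0, norm_zero] at h3
    exact zero_ne_one h3
  exact integral_congr_ae (Filter.Eventually.of_forall h2)

/-! ### the diameter is a genuine supremum -/

/-- the diameter is a genuine (finite) supremum -/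
theorem gdist_le_gdiam {n : ℕ} (hn : 1 ≤ n) (M : RMetric n) (x y : EE n) (hx : ‖x‖ = 1) (hy : ‖y‖ = 1) :
    gdist M.g x y ≤ gdiam M.g := by
  have h := (Helper64.RFn.DBD.dbd n (gz M.g) hn (isMetric M)).2.2.1 x y hx hy
  rw [← gdist_eq, ← gdiam_eq, gdist_congr (gz_eq M.g), gdiam_congr (gz_eq M.g)] at h
  exact h

/-! ### the theorem -/

theorem sp (hM : Helper73.RFn.MainStmt) (n : ℕ) (hn : 4 ≤ n) (δ : ℝ) (hδ : 1 / 4 < δ) :
    ∃ ε : ℝ, 0 < ε ∧ ∀ M : RMetric n, (∀ x : EE n, ‖x‖ = 1 → PinchedAt δ M.g x) →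
      ε * gdiam M.g ^ n ≤ gvol M.g := by
  obtain ⟨ε, hε, h⟩ := hM n δ hn hδ
  refine ⟨ε, hε, fun M hp => ?_⟩
  have h1 := h (gz M.g) (isMetric M) (pinched M δ hp)
  rw [gvol_eq, ← gdiam_eq, gdiam_congr (gz_eq M.g)] at h1
  exact h1

end Pool.Agent.Helper73.SP
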