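import Mathlib

/-!
# Smooth Riemannian metrics on the `n`-sphere

`Sⁿ` is the unit sphere of `ℝ^{n+1}`, `T_x Sⁿ = x^⊥`. A Riemannian metric on `Sⁿ` is given by the field
`g` of symmetric matrices with `⟨u, v⟩ = uᵀ g(x) v` for `u, v ∈ T_x Sⁿ`, normalised by `g(x) x = x`; it is
extended to `ℝ^{n+1} ∖ {0}` constant on rays. The map `x ↦ (log |x|, x/|x|)` is an isometry of
`ℝ^{n+1} ∖ {0}` with the metric `cyl g = g/|x|²` onto the Riemannian product `ℝ × (Sⁿ, g)`; so the sectional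
curvature of `(Sⁿ, g)` at `x` of a plane in `T_x Sⁿ` is the sectional curvature of `cyl g` at `x` of the same
plane. It is computed with the usual formulas in the cartesian coordinates of `ℝ^{n+1}`.
-/

set_option autoImplicit false

namespace Pool.Agent.Helper73.SP

open Finset MeasureTheory

/-- `ℝ^{n+1}` with its Euclidean norm. `Sⁿ = {x : ‖x‖ = 1}`. -/
abbrev EE (n : ℕ) := EuclideanSpace ℝ (Fin (n + 1))

/-- fields of `(n+1) × (n+1)` matrices -/
abbrev MF (n : ℕ) := EE n → Matrix (Fin (n + 1)) (Fin (n + 1)) ℝ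

/-- A smooth Riemannian metric on `Sⁿ`: for `‖x‖ = 1`, `g x` is the Gram matrix (in the standard basis
of `ℝ^{n+1}`) of the inner product which is the Riemannian metric on `T_x Sⁿ = x^⊥` and for which `x` is a
unit vector orthogonal to `T_x Sⁿ` (that is `g(x) x = x`); smooth in `x`, and extended to
`ℝ^{n+1} ∖ {0}` constant on rays. -/
structure RMetric (n : ℕ) where
  g : MF n
  smooth : ∀ i j, ContDiffOn ℝ ((⊤ : ℕ∞) : WithTop ℕ∞) (fun x => g x i j) {0}ᶜ
  rays : ∀ (r : ℝ) (x : EE n), 0 < r → g (r • x) = g x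
  posDef : ∀ x : EE n, ‖x‖ = 1 → (g x).PosDef
  normal : ∀ x : EE n, ‖x‖ = 1 → ∀ i, ∑ j, g x i j * x j = x i

/-- partial derivative `∂_i f` -/
noncomputable def pd {n : ℕ} (i : Fin (n + 1)) (f : EE n → ℝ) (x : EE n) : ℝ :=
  fderiv ℝ f x (EuclideanSpace.single i 1)

/-- the product metric `dr²/r² + g` of `ℝ^{n+1} ∖ {0} = ℝ × Sⁿ` in cartesian coordinates -/
noncomputable def cyl {n : ℕ} (g : MF n) : MF n := fun x => (‖x‖ ^ 2)⁻¹ • g x

/-- Christoffel symbols of a metric `h`: `∇_{∂_i} ∂_j = ∑ₖ Chr h i j k ∂_k` -/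
noncomputable def Chr {n : ℕ} (h : MF n) (i j k : Fin (n + 1)) (x : EE n) : ℝ :=
  1 / 2 * ∑ l, (h x)⁻¹ k l * (pd i (fun y => h y j l) x + pd j (fun y => h y i l) x
    - pd l (fun y => h y i j) x)

/-- Curvature `R(∂_i,∂_j)∂_k = ∇_{∂_i} ∇_{∂_j} ∂_k - ∇_{∂_j} ∇_{∂_i} ∂_k = ∑ₗ Rup h i j k l ∂_l` -/
noncomputable def Rup {n : ℕ} (h : MF n) (i j k l : Fin (n + 1)) (x : EE n) : ℝ :=
  pd i (Chr h j k l) x - pd j (Chr h i k l) x
    + ∑ m, (Chr h j k m x * Chr h i m l x - Chr h i k m x * Chr h j m l x)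

/-- `Rm h i j k l = h(R(∂_i,∂_j)∂_k, ∂_l)` -/
noncomputable def Rm {n : ℕ} (h : MF n) (i j k l : Fin (n + 1)) (x : EE n) : ℝ :=
  ∑ m, Rup h i j k m x * h x m l

/-- inner product of `u` and `v` at `x` -/
def ip {n : ℕ} (h : MF n) (x : EE n) (u v : Fin (n + 1) → ℝ) : ℝ := ∑ i, ∑ j, h x i j * u i * v j

/-- `h(R(u,v)v, u)` -/
noncomputable def curv {n : ℕ} (h : MF n) (x : EE n) (u v : Fin (n + 1) → ℝ) : ℝ :=
  ∑ i, ∑ j, ∑ k, ∑ l, Rm h i j k l x * u i * v j * v k * u l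

/-- squared area of the parallelogram spanned by `u, v` -/
def ar {n : ℕ} (h : MF n) (x : EE n) (u v : Fin (n + 1) → ℝ) : ℝ :=
  ip h x u u * ip h x v v - ip h x u v ^ 2

/-- sectional curvature of the plane spanned by the linearly independent vectors `u, v` -/
noncomputable def sec {n : ℕ} (h : MF n) (x : EE n) (u v : Fin (n + 1) → ℝ) : ℝ :=
  curv h x u v / ar h x u v

/-- `u ∈ T_x Sⁿ` -/
def Tan {n : ℕ} (x : EE n) (u : Fin (n + 1) → ℝ) : Prop := ∑ i, u i * x i = 0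

/-- Pointwise pinching of the metric `g` of `Sⁿ` at `x`: all sectional curvatures at `x` are positive, and
`K(σ) > δ K(σ')` for all planes `σ, σ' ⊂ T_x Sⁿ`. -/
def PinchedAt {n : ℕ} (δ : ℝ) (g : MF n) (x : EE n) : Prop :=
  ∀ u v u' v' : Fin (n + 1) → ℝ, Tan x u → Tan x v → Tan x u' → Tan x v' →
    LinearIndependent ℝ ![u, v] → LinearIndependent ℝ ![u', v'] →
    0 < sec (cyl g) x u v ∧ δ * sec (cyl g) x u' v' < sec (cyl g) x u v

/-- speed of a curve in `Sⁿ` -/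
noncomputable def speed {n : ℕ} (g : MF n) (c : ℝ → EE n) (t : ℝ) : ℝ :=
  Real.sqrt (ip g (c t) (fun i => deriv c t i) (fun i => deriv c t i))

/-- length of the curve `c : [0,1] → Sⁿ` -/
noncomputable def glen {n : ℕ} (g : MF n) (c : ℝ → EE n) : ℝ := ∫ t in (0:ℝ)..1, speed g c t

/-- Lipschitz curves in `Sⁿ` from `x` to `y` -/
def Joins {n : ℕ} (c : ℝ → EE n) (x y : EE n) : Prop :=
  (∃ K, LipschitzWith K c) ∧ (∀ t, ‖c t‖ = 1) ∧ c 0 = x ∧ c 1 = y

/-- Riemannian distance of two points of `Sⁿ` -/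
noncomputable def gdist {n : ℕ} (g : MF n) (x y : EE n) : ℝ :=
  sInf {r | ∃ c, Joins c x y ∧ r = glen g c}

/-- diameter of `(Sⁿ, g)` -/
noncomputable def gdiam {n : ℕ} (g : MF n) : ℝ :=
  sSup {r | ∃ x y : EE n, ‖x‖ = 1 ∧ ‖y‖ = 1 ∧ r = gdist g x y}

/-- Riemannian volume of `(Sⁿ, g)`: the integral of `√det g` over the surface measure of the unit
sphere of `ℝ^{n+1}` (as `g(x) x = x`, `det g(x)` is the Gram determinant of the metric in an orthonormal
basis of `x^⊥`). -/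
noncomputable def gvol {n : ℕ} (g : MF n) : ℝ :=
  ∫ x : Metric.sphere (0 : EE n) 1, Real.sqrt (g (x : EE n)).det ∂(volume : Measure (EE n)).toSphere

end Pool.Agent.Helper73.SP
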