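import Pool.Agent.Helper73.RFn.SPdefs

/-!
# Sanity check of the definitions: the round metric of radius `r` has curvature `1/r²`
-/

set_option autoImplicit false

namespace Pool.Agent.Helper73.SP

open Finset

variable {n : ℕ}

/-- Kronecker symbol -/
def dl (i j : Fin (n + 1)) : ℝ := if i = j then 1 else 0

theorem dl_comm (i j : Fin (n + 1)) : dl i j = dl j i := by
  unfold dl
  simp only [eq_comm]

theorem sum_dl (i : Fin (n + 1)) (f : Fin (n + 1) → ℝ) : ∑ j, dl i j * f j = f i := by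
  simp [dl]

theorem sum_dl' (i : Fin (n + 1)) (f : Fin (n + 1) → ℝ) : ∑ j, dl j i * f j = f i := by
  simp [dl]

theorem norm_sq_eq (x : EE n) : ‖x‖ ^ 2 = ∑ i, x i * x i := by
  rw [EuclideanSpace.norm_sq_eq]
  exact Finset.sum_congr rfl fun i _ => by rw [Real.norm_eq_abs, sq_abs, sq]

/-- the matrix field of the round metric of radius `r` -/
noncomputable def rg (n : ℕ) (r : ℝ) : MF n :=
  fun x => Matrix.of fun i j => r ^ 2 * dl i j + (1 - r ^ 2) * (x i * x j) * (‖x‖ ^ 2)⁻¹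

theorem rg_apply (r : ℝ) (x : EE n) (i j : Fin (n + 1)) :
    rg n r x i j = r ^ 2 * dl i j + (1 - r ^ 2) * (x i * x j) * (‖x‖ ^ 2)⁻¹ := rfl

/-- the round metric of radius `r` -/
noncomputable def round (n : ℕ) (r : ℝ) (hr : 0 < r) : RMetric n where
  g := rg n r
  smooth i j := by
    have h1 : ∀ k, ContDiff ℝ ((⊤ : ℕ∞) : WithTop ℕ∞) (fun x : EE n => x k) := fun k =>
      (EuclideanSpace.proj k : EE n →L[ℝ] ℝ).contDiff
    have h2 : ContDiffOn ℝ ((⊤ : ℕ∞) : WithTop ℕ∞) (fun x : EE n => (‖x‖ ^ 2)⁻¹) {0}ᶜ :=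
      (contDiff_norm_sq ℝ).contDiffOn.inv fun x hx => by
        have : 0 < ‖x‖ := norm_pos_iff.mpr hx
        positivity
    exact contDiffOn_const.add ((contDiffOn_const.mul ((h1 i).contDiffOn.mul (h1 j).contDiffOn)).mul h2)
  rays s x hs := by
    ext i j
    rw [rg_apply, rg_apply, norm_smul, Real.norm_eq_abs, abs_of_pos hs]
    simp only [PiLp.smul_apply, smul_eq_mul]
    congr 1
    have : s ≠ 0 := hs.ne'
    rw [mul_pow, mul_inv]
    field_simp
  posDef x hx := by
    have hq : ∀ v : Fin (n + 1) → ℝ, ∑ i, ∑ j, v i * (rg n r x i j * v j)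
        = r ^ 2 * (∑ i, v i * v i) + (1 - r ^ 2) * (∑ i, x i * v i) ^ 2 := by
      intro v
      have e : ∀ i, ∑ j, v i * (rg n r x i j * v j)
          = r ^ 2 * (v i * v i) + (1 - r ^ 2) * (x i * v i) * ∑ j, x j * v j := by
        intro i
        have e2 : ∀ j, v i * (rg n r x i j * v j)
            = r ^ 2 * v i * (dl i j * v j) + (1 - r ^ 2) * (x i * v i) * (x j * v j) := by
          intro j
          rw [rg_apply, hx]
          ring
        rw [Finset.sum_congr rfl fun j _ => e2 j, Finset.sum_add_distrib, ← Finset.mul_sum,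
          ← Finset.mul_sum, sum_dl]
        ring
      rw [Finset.sum_congr rfl fun i _ => e i, Finset.sum_add_distrib, ← Finset.mul_sum,
        ← Finset.sum_mul, ← Finset.mul_sum]
      ring
    refine Matrix.PosDef.of_dotProduct_mulVec_pos ?_ ?_
    · ext i j
      rw [Matrix.conjTranspose_apply, rg_apply, rg_apply, dl_comm, star_trivial, mul_comm (x j) (x i)]
    · intro v hv
      have e : dotProduct (star v) (Matrix.mulVec (rg n r x) v)
          = ∑ i, ∑ j, v i * (rg n r x i j * v j) := by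
        simp only [dotProduct, Matrix.mulVec, Finset.mul_sum, Pi.star_apply, star_trivial]
      rw [e, hq]
      have hv2 : 0 < ∑ i, v i * v i := by
        have h0 : ∀ i, 0 ≤ v i * v i := fun i => mul_self_nonneg _
        rcases (Finset.sum_nonneg fun i _ => h0 i).lt_or_eq with h | h
        · exact h
        · exfalso
          apply hv
          funext i
          have := (Finset.sum_eq_zero_iff_of_nonneg fun i _ => h0 i).mp h.symm i (Finset.mem_univ i)
          simpa using this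
      have hcs : (∑ i, x i * v i) ^ 2 ≤ (∑ i, v i * v i) := by
        have h1 := Finset.sum_mul_sq_le_sq_mul_sq Finset.univ (fun i => x i) v
        have h2 : ∑ i, x i ^ 2 = 1 := by
          have := norm_sq_eq x
          rw [hx] at this
          rw [Finset.sum_congr rfl fun i _ => sq (x i), ← this]
          norm_num
        have h3 : ∑ i, v i ^ 2 = ∑ i, v i * v i := Finset.sum_congr rfl fun i _ => sq (v i)
        rw [h2, h3, one_mul] at h1
        exact h1
      have hr2 : 0 < r ^ 2 := by positivity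
      rcases le_or_gt (r ^ 2) 1 with h | h
      · have : 0 ≤ (1 - r ^ 2) * (∑ i, x i * v i) ^ 2 := mul_nonneg (by linarith) (sq_nonneg _)
        nlinarith
      · nlinarith
  normal x hx i := by
    have e : ∀ j, rg n r x i j * x j = r ^ 2 * (dl i j * x j) + (1 - r ^ 2) * x i * (x j * x j) := by
      intro j
      rw [rg_apply, hx]
      ring
    have h2 := norm_sq_eq x
    rw [hx] at h2
    rw [Finset.sum_congr rfl fun j _ => e j, Finset.sum_add_distrib, ← Finset.mul_sum, ← Finset.mul_sum,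
      sum_dl, ← h2]
    ring

/-! ### curvature -/

theorem cyl_apply (r : ℝ) (x : EE n) (i j : Fin (n + 1)) :
    cyl (rg n r) x i j = r ^ 2 * dl i j * (‖x‖ ^ 2)⁻¹ + (1 - r ^ 2) * (x i * x j) * (‖x‖ ^ 2)⁻¹ ^ 2 := by
  show (‖x‖ ^ 2)⁻¹ * rg n r x i j = _
  rw [rg_apply]
  ring

theorem pd_of {f : EE n → ℝ} {f' : EE n →L[ℝ] ℝ} {x : EE n} (h : HasFDerivAt f f' x) (i : Fin (n + 1)) :
    pd i f x = f' (EuclideanSpace.single i 1) := by
  unfold pd
  rw [h.fderiv]

theorem hd_coord (k : Fin (n + 1)) (x : EE n) :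
    HasFDerivAt (fun y : EE n => y k) (EuclideanSpace.proj k : EE n →L[ℝ] ℝ) x :=
  (EuclideanSpace.proj k : EE n →L[ℝ] ℝ).hasFDerivAt

theorem hd_inv (x : EE n) (hx : x ≠ 0) :
    HasFDerivAt (fun y : EE n => (‖y‖ ^ 2)⁻¹) ((-((‖x‖ ^ 2) ^ 2)⁻¹) • (2 • innerSL ℝ x)) x := by
  have hn : 0 < ‖x‖ := norm_pos_iff.mpr hx
  have h1 : HasFDerivAt (fun y : EE n => ‖y‖ ^ 2) (2 • innerSL ℝ x) x :=
    (hasStrictFDerivAt_norm_sq x).hasFDerivAt
  exact (hasDerivAt_inv (by positivity : ‖x‖ ^ 2 ≠ 0)).comp_hasFDerivAt x h1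

theorem proj_single (k i : Fin (n + 1)) :
    (EuclideanSpace.proj k : EE n →L[ℝ] ℝ) (EuclideanSpace.single i 1) = dl k i := by
  show (EuclideanSpace.single i (1 : ℝ) : EE n) k = dl k i
  rw [PiLp.single_apply]
  rfl

theorem inner_single (x : EE n) (i : Fin (n + 1)) : innerSL ℝ x (EuclideanSpace.single i 1) = x i := by
  rw [innerSL_apply_apply, EuclideanSpace.inner_single_right]
  simp

theorem pd_h (r : ℝ) (x : EE n) (hx : x ≠ 0) (i j l : Fin (n + 1)) :
    pd l (fun y => cyl (rg n r) y i j) x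
      = r ^ 2 * dl i j * (-2 * x l * ((‖x‖ ^ 2)⁻¹) ^ 2)
        + (1 - r ^ 2) * ((dl i l * x j + x i * dl j l) * (‖x‖ ^ 2)⁻¹ ^ 2
          + x i * x j * (-4 * x l * (‖x‖ ^ 2)⁻¹ ^ 3)) := by
  have h1 := (hd_inv x hx).const_mul (r ^ 2 * dl i j)
  have h2 := ((hd_coord i x).mul (hd_coord j x)).mul ((hd_inv x hx).mul (hd_inv x hx))
  have h3 := h1.add (h2.const_mul (1 - r ^ 2))
  have h4 : (fun y : EE n => cyl (rg n r) y i j)
      = fun y => r ^ 2 * dl i j * (‖y‖ ^ 2)⁻¹
        + (1 - r ^ 2) * (y i * y j * ((‖y‖ ^ 2)⁻¹ * (‖y‖ ^ 2)⁻¹)) := by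
    funext y
    rw [cyl_apply]
    ring
  rw [h4]
  have h5 := pd_of h3 l
  refine Eq.trans h5 ?_
  simp only [add_apply, smul_apply, smul_eq_mul, proj_single, Pi.mul_apply, nsmul_eq_mul,
    inner_single, inv_pow, Nat.cast_ofNat]
  ring

theorem inv_h (r : ℝ) (hr : 0 < r) (x : EE n) (hx : x ≠ 0) (i j : Fin (n + 1)) :
    (cyl (rg n r) x)⁻¹ i j = (‖x‖ ^ 2) * (r ^ 2)⁻¹ * dl i j + (1 - (r ^ 2)⁻¹) * (x i * x j) := by
  have hn : 0 < ‖x‖ := norm_pos_iff.mpr hx
  set W : Matrix (Fin (n + 1)) (Fin (n + 1)) ℝ :=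
    Matrix.of fun i j => (‖x‖ ^ 2) * (r ^ 2)⁻¹ * dl i j + (1 - (r ^ 2)⁻¹) * (x i * x j) with hW
  have h1 : cyl (rg n r) x * W = 1 := by
    ext a b
    rw [Matrix.mul_apply, Matrix.one_apply]
    have e : ∀ k, cyl (rg n r) x a k * W k b
        = dl a k * (r ^ 2 * (‖x‖ ^ 2)⁻¹ * ((‖x‖ ^ 2) * (r ^ 2)⁻¹ * dl k b + (1 - (r ^ 2)⁻¹) * (x k * x b)))
          + dl b k * ((1 - r ^ 2) * (x a * x k) * (‖x‖ ^ 2)⁻¹ ^ 2 * ((‖x‖ ^ 2) * (r ^ 2)⁻¹))
          + (1 - r ^ 2) * (‖x‖ ^ 2)⁻¹ ^ 2 * (1 - (r ^ 2)⁻¹) * x a * x b * (x k * x k) := by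
      intro k
      rw [cyl_apply, hW, Matrix.of_apply, dl_comm k b]
      ring
    rw [Finset.sum_congr rfl fun k _ => e k, Finset.sum_add_distrib, Finset.sum_add_distrib, sum_dl,
      sum_dl, ← Finset.mul_sum, ← norm_sq_eq]
    have hr' : r ≠ 0 := hr.ne'
    have hn' : ‖x‖ ≠ 0 := hn.ne'
    show _ = dl a b
    field_simp
    ring
  rw [Matrix.inv_eq_right_inv h1]
  rfl

/-- Christoffel symbols -/
theorem chr_h (r : ℝ) (hr : 0 < r) (x : EE n) (hx : x ≠ 0) (i j k : Fin (n + 1)) :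
    Chr (cyl (rg n r)) i j k x
      = -(dl j k * x i + dl i k * x j - dl i j * x k) * (‖x‖ ^ 2)⁻¹ := by
  have hn : 0 < ‖x‖ := norm_pos_iff.mpr hx
  unfold Chr
  have e : ∀ l, (cyl (rg n r) x)⁻¹ k l * (pd i (fun y => cyl (rg n r) y j l) x
      + pd j (fun y => cyl (rg n r) y i l) x - pd l (fun y => cyl (rg n r) y i j) x)
      = dl k l * (‖x‖ ^ 2 * (r ^ 2)⁻¹ * (-2 * r ^ 2 * (dl j l * x i + dl i l * x j) * (‖x‖ ^ 2)⁻¹ ^ 2
          + 2 * dl i j * x l * (‖x‖ ^ 2)⁻¹ ^ 2 - 4 * (1 - r ^ 2) * x i * x j * x l * (‖x‖ ^ 2)⁻¹ ^ 3))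
        + dl j l * (-2 * r ^ 2 * (1 - (r ^ 2)⁻¹) * x k * x l * x i * (‖x‖ ^ 2)⁻¹ ^ 2)
        + dl i l * (-2 * r ^ 2 * (1 - (r ^ 2)⁻¹) * x k * x l * x j * (‖x‖ ^ 2)⁻¹ ^ 2)
        + ((1 - (r ^ 2)⁻¹) * x k * (2 * dl i j * (‖x‖ ^ 2)⁻¹ ^ 2
          - 4 * (1 - r ^ 2) * x i * x j * (‖x‖ ^ 2)⁻¹ ^ 3)) * (x l * x l) := by
    intro l
    rw [inv_h r hr x hx, pd_h r x hx, pd_h r x hx, pd_h r x hx, dl_comm l i, dl_comm l j, dl_comm j i]
    ring
  rw [Finset.sum_congr rfl fun l _ => e l, Finset.sum_add_distrib, Finset.sum_add_distrib,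
    Finset.sum_add_distrib, sum_dl, sum_dl, sum_dl, ← Finset.mul_sum, ← norm_sq_eq]
  have hr' : r ≠ 0 := hr.ne'
  have hn' : ‖x‖ ≠ 0 := hn.ne'
  field_simp
  ring

theorem pd_chr (r : ℝ) (hr : 0 < r) (x : EE n) (hx : ‖x‖ = 1) (l i j k : Fin (n + 1)) :
    pd l (Chr (cyl (rg n r)) i j k) x
      = -(dl j k * dl i l + dl i k * dl j l - dl i j * dl k l)
        + 2 * x l * (dl j k * x i + dl i k * x j - dl i j * x k) := by
  have h0 : x ≠ 0 := by
    intro h0
    rw [h0, norm_zero] at hx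
    exact zero_ne_one hx
  have h1 : (Chr (cyl (rg n r)) i j k) =ᶠ[nhds x]
      fun y => -(dl j k * y i + dl i k * y j - dl i j * y k) * (‖y‖ ^ 2)⁻¹ := by
    filter_upwards [isOpen_compl_singleton.mem_nhds h0] with y hy
    exact chr_h r hr y hy i j k
  have h2 := ((((hd_coord i x).const_mul (dl j k)).add ((hd_coord j x).const_mul (dl i k))).sub
    ((hd_coord k x).const_mul (dl i j))).neg.mul (hd_inv x h0)
  have h3 : pd l (Chr (cyl (rg n r)) i j k) x
      = pd l (fun y => -(dl j k * y i + dl i k * y j - dl i j * y k) * (‖y‖ ^ 2)⁻¹) x := by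
    unfold pd
    rw [h1.fderiv_eq]
  rw [h3]
  refine Eq.trans (pd_of h2 l) ?_
  simp only [add_apply, smul_apply, smul_eq_mul, proj_single, Pi.neg_apply,
    Pi.add_apply, Pi.sub_apply, nsmul_eq_mul, inner_single, neg_apply, sub_apply, hx, Nat.cast_ofNat]
  ring

theorem rup_h (r : ℝ) (hr : 0 < r) (x : EE n) (hx : ‖x‖ = 1) (i j k m : Fin (n + 1)) :
    Rup (cyl (rg n r)) i j k m x = dl j k * dl i m - dl i k * dl j m + dl j m * x i * x k
      - dl j k * x i * x m - dl i m * x j * x k + dl i k * x j * x m := by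
  have h0 : x ≠ 0 := by
    intro h0
    rw [h0, norm_zero] at hx
    exact zero_ne_one hx
  have hs : ∑ p, x p * x p = 1 := by
    rw [← norm_sq_eq, hx]
    norm_num
  unfold Rup
  rw [pd_chr r hr x hx, pd_chr r hr x hx]
  have e : ∀ p, Chr (cyl (rg n r)) j k p x * Chr (cyl (rg n r)) i p m x
      - Chr (cyl (rg n r)) i k p x * Chr (cyl (rg n r)) j p m x
      = dl k p * (x j * (dl p m * x i + dl i m * x p - dl i p * x m))
        + dl j p * (x k * (dl p m * x i + dl i m * x p - dl i p * x m))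
        - dl m p * (dl j k * x p * x i) - dl j k * dl i m * (x p * x p)
        + dl i p * (dl j k * x p * x m)
        - (dl k p * (x i * (dl p m * x j + dl j m * x p - dl j p * x m))
        + dl i p * (x k * (dl p m * x j + dl j m * x p - dl j p * x m))
        - dl m p * (dl i k * x p * x j) - dl i k * dl j m * (x p * x p)
        + dl j p * (dl i k * x p * x m)) := by
    intro p
    rw [chr_h r hr x h0, chr_h r hr x h0, chr_h r hr x h0, chr_h r hr x h0, hx, dl_comm m p]
    ring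
  rw [Finset.sum_congr rfl fun p _ => e p]
  simp only [Finset.sum_add_distrib, Finset.sum_sub_distrib, sum_dl, ← Finset.mul_sum, hs]
  rw [dl_comm k m, dl_comm i j, dl_comm k j, dl_comm k i, dl_comm m i, dl_comm m j]
  ring

theorem sum_mul_dot (u v : Fin (n + 1) → ℝ) : ∑ i, ∑ j, u i * u j * (v i * v j) = (∑ i, u i * v i) ^ 2 := by
  rw [sq, Finset.sum_mul_sum]
  exact Finset.sum_congr rfl fun i _ => Finset.sum_congr rfl fun j _ => by ring

theorem ip_h (r : ℝ) (x : EE n) (hx : ‖x‖ = 1) (u v : Fin (n + 1) → ℝ) (hu : Tan x u) :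
    ip (cyl (rg n r)) x u v = r ^ 2 * ∑ i, u i * v i := by
  unfold ip
  have e : ∀ i, ∑ j, cyl (rg n r) x i j * u i * v j
      = r ^ 2 * (u i * v i) + (1 - r ^ 2) * (∑ j, x j * v j) * (u i * x i) := by
    intro i
    have e2 : ∀ j, cyl (rg n r) x i j * u i * v j
        = dl i j * (r ^ 2 * u i * v j) + (1 - r ^ 2) * (u i * x i) * (x j * v j) := by
      intro j
      rw [cyl_apply, hx]
      ring
    rw [Finset.sum_congr rfl fun j _ => e2 j, Finset.sum_add_distrib, sum_dl, ← Finset.mul_sum]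
    ring
  rw [Finset.sum_congr rfl fun i _ => e i, Finset.sum_add_distrib, ← Finset.mul_sum, ← Finset.mul_sum]
  unfold Tan at hu
  rw [hu]
  ring

theorem curv_h (r : ℝ) (hr : 0 < r) (x : EE n) (hx : ‖x‖ = 1) (u v : Fin (n + 1) → ℝ) (hu : Tan x u)
    (hv : Tan x v) : curv (cyl (rg n r)) x u v
      = r ^ 2 * ((∑ i, u i * u i) * (∑ i, v i * v i) - (∑ i, u i * v i) ^ 2) := by
  unfold Tan at hu hv
  have h1 : ∀ m, ∑ l, cyl (rg n r) x m l * u l = r ^ 2 * u m := by
    intro m
    have e2 : ∀ l, cyl (rg n r) x m l * u l = dl m l * (r ^ 2 * u l) + (1 - r ^ 2) * x m * (u l * x l) := by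
      intro l
      rw [cyl_apply, hx]
      ring
    rw [Finset.sum_congr rfl fun l _ => e2 l, Finset.sum_add_distrib, sum_dl, ← Finset.mul_sum, hu]
    ring
  unfold curv Rm
  have e1 : ∀ i j k, ∑ l, (∑ m, Rup (cyl (rg n r)) i j k m x * cyl (rg n r) x m l) * u i * v j * v k * u l
      = r ^ 2 * (dl j k * u i * u i * v j * v k - dl i k * u i * v j * v k * u j
        + u j * u i * x i * v j * (v k * x k) - dl j k * (u i * x i) * v j * v k * (∑ m, u m * x m)
        - u i * u i * (v j * x j) * (v k * x k) + dl i k * u i * v k * (v j * x j) * (∑ m, u m * x m)) := by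
    intro i j k
    have e2 : ∀ l, (∑ m, Rup (cyl (rg n r)) i j k m x * cyl (rg n r) x m l) * u i * v j * v k * u l
        = ∑ m, u i * v j * v k * Rup (cyl (rg n r)) i j k m x * (cyl (rg n r) x m l * u l) := by
      intro l
      rw [Finset.sum_mul, Finset.sum_mul, Finset.sum_mul, Finset.sum_mul]
      exact Finset.sum_congr rfl fun m _ => by ring
    rw [Finset.sum_congr rfl fun l _ => e2 l, Finset.sum_comm]
    have e3 : ∀ m, ∑ l, u i * v j * v k * Rup (cyl (rg n r)) i j k m x * (cyl (rg n r) x m l * u l)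
        = dl i m * (r ^ 2 * u i * v j * v k * dl j k * u m) - dl j m * (r ^ 2 * u i * v j * v k * dl i k * u m)
          + dl j m * (r ^ 2 * u i * v j * v k * x i * x k * u m)
          - r ^ 2 * u i * v j * v k * dl j k * x i * (u m * x m)
          - dl i m * (r ^ 2 * u i * v j * v k * x j * x k * u m)
          + r ^ 2 * u i * v j * v k * dl i k * x j * (u m * x m) := by
      intro m
      rw [← Finset.mul_sum, h1, rup_h r hr x hx]
      ring
    rw [Finset.sum_congr rfl fun m _ => e3 m]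
    simp only [Finset.sum_add_distrib, Finset.sum_sub_distrib, sum_dl, ← Finset.mul_sum]
    ring
  have e4 : ∀ i j, ∑ k, ∑ l, (∑ m, Rup (cyl (rg n r)) i j k m x * cyl (rg n r) x m l) * u i * v j * v k * u l
      = r ^ 2 * (u i * u i * (v j * v j) - (u i * v i) * (u j * v j)) := by
    intro i j
    rw [Finset.sum_congr rfl fun k _ => e1 i j k]
    have e5 : ∀ k, r ^ 2 * (dl j k * u i * u i * v j * v k - dl i k * u i * v j * v k * u j
        + u j * u i * x i * v j * (v k * x k) - dl j k * (u i * x i) * v j * v k * (∑ m, u m * x m)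
        - u i * u i * (v j * x j) * (v k * x k) + dl i k * u i * v k * (v j * x j) * (∑ m, u m * x m))
        = dl j k * (r ^ 2 * u i * u i * v j * v k) - dl i k * (r ^ 2 * u i * v j * v k * u j)
        + (r ^ 2 * (u j * u i * x i * v j - u i * u i * (v j * x j))) * (v k * x k) := by
      intro k
      rw [hu]
      ring
    rw [Finset.sum_congr rfl fun k _ => e5 k]
    simp only [Finset.sum_add_distrib, Finset.sum_sub_distrib, sum_dl, ← Finset.mul_sum]
    rw [hv]
    ring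
  rw [Finset.sum_congr rfl fun i _ => Finset.sum_congr rfl fun j _ => e4 i j]
  simp only [← Finset.mul_sum, Finset.sum_sub_distrib]
  rw [← Finset.sum_mul, ← Finset.sum_mul]
  ring

/-- all sectional curvatures of the round sphere of radius `r` are `1/r²` -/
theorem sec_round (r : ℝ) (hr : 0 < r) (x : EE n) (hx : ‖x‖ = 1) (u v : Fin (n + 1) → ℝ)
    (hu : Tan x u) (hv : Tan x v) (h : LinearIndependent ℝ ![u, v]) :
    sec (cyl (round n r hr).g) x u v = 1 / r ^ 2 := by
  have hcs : 0 < (∑ i, u i * u i) * (∑ i, v i * v i) - (∑ i, u i * v i) ^ 2 := by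
    rw [LinearIndependent.pair_iff] at h
    have hnn : ∀ w : Fin (n + 1) → ℝ, ∑ i, w i * w i = 0 → w = 0 := by
      intro w hw
      funext i
      have := (Finset.sum_eq_zero_iff_of_nonneg fun i _ => mul_self_nonneg (w i)).mp hw i (Finset.mem_univ i)
      simpa using this
    have hu0 : 0 < ∑ i, u i * u i := by
      rcases (Finset.sum_nonneg fun i (_ : i ∈ Finset.univ) => mul_self_nonneg (u i)).lt_or_eq with h' | h'
      · exact h'
      · exfalso
        have := h 1 0 (by rw [hnn u h'.symm]; simp)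
        exact one_ne_zero this.1
    set a := ∑ i, u i * u i with ha
    set b := ∑ i, u i * v i with hb
    have hw : 0 < ∑ i, (a * v i - b * u i) * (a * v i - b * u i) := by
      rcases (Finset.sum_nonneg fun i (_ : i ∈ Finset.univ) =>
        mul_self_nonneg (a * v i - b * u i)).lt_or_eq with h' | h'
      · exact h'
      · exfalso
        have h2 := hnn (fun i => a * v i - b * u i) h'.symm
        have h3 : (-b) • u + a • v = 0 := by
          funext i
          have := congrFun h2 i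
          simp only [Pi.zero_apply] at this
          simp only [Pi.add_apply, Pi.smul_apply, smul_eq_mul, Pi.zero_apply]
          linarith
        exact hu0.ne' (h _ _ h3).2
    have e : ∑ i, (a * v i - b * u i) * (a * v i - b * u i) = a * (a * (∑ i, v i * v i) - b ^ 2) := by
      have e1 : ∀ i, (a * v i - b * u i) * (a * v i - b * u i)
          = a ^ 2 * (v i * v i) - 2 * a * b * (u i * v i) + b ^ 2 * (u i * u i) := fun i => by ring
      rw [Finset.sum_congr rfl fun i _ => e1 i, Finset.sum_add_distrib, Finset.sum_sub_distrib,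
        ← Finset.mul_sum, ← Finset.mul_sum, ← Finset.mul_sum, ← ha, ← hb]
      ring
    rw [e] at hw
    exact pos_of_mul_pos_right hw hu0.le
  show curv (cyl (rg n r)) x u v / ar (cyl (rg n r)) x u v = 1 / r ^ 2
  have hr' : r ≠ 0 := hr.ne'
  unfold ar
  rw [curv_h r hr x hx u v hu hv, ip_h r x hx u u hu, ip_h r x hx v v hv, ip_h r x hx u v hu]
  have e : r ^ 2 * (∑ i, u i * u i) * (r ^ 2 * ∑ i, v i * v i) - (r ^ 2 * ∑ i, u i * v i) ^ 2
      = r ^ 4 * ((∑ i, u i * u i) * (∑ i, v i * v i) - (∑ i, u i * v i) ^ 2) := by ring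
  rw [e]
  generalize (∑ i, u i * u i) * (∑ i, v i * v i) - (∑ i, u i * v i) ^ 2 = X at hcs
  have hX := hcs.ne'
  field_simp

/-- the round sphere of radius `r` is `δ`-pinched for every `δ < 1` -/
theorem pinched_round (r : ℝ) (hr : 0 < r) (δ : ℝ) (hδ : δ < 1) (x : EE n) (hx : ‖x‖ = 1) :
    PinchedAt δ (round n r hr).g x := by
  intro u v u' v' hu hv hu' hv' h h'
  rw [sec_round r hr x hx u v hu hv h, sec_round r hr x hx u' v' hu' hv' h']
  have : 0 < 1 / r ^ 2 := by positivity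
  exact ⟨this, by nlinarith⟩

end Pool.Agent.Helper73.SP
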